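import Pool.Agent.Lib.EN39.Defs

namespace Pool.Agent.Lib.EN39

open Polynomial

namespace COMP

variable {F K : Type} [Field F] [Field K] [Algebra F K] (P : Pl F K)

theorem nu_one : P.ν 1 = 0 := by simpa using P.const 1 one_ne_zero

theorem nu_inv {f : K} (hf : f ≠ 0) : P.ν f⁻¹ = -P.ν f := by
  have h := P.mul hf (inv_ne_zero hf)
  rw [mul_inv_cancel₀ hf, nu_one] at h
  omega

theorem nu_neg {f : K} (hf : f ≠ 0) : P.ν (-f) = P.ν f := by
  have h := P.mul (f := algebraMap F K (-1)) (by simp) hf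
  rw [P.const (-1) (by simp)] at h
  simpa using h

theorem ge_add {n : ℤ} {f g : K} (hf : P.Ge n f) (hg : P.Ge n g) : P.Ge n (f + g) := by
  by_cases f0 : f = 0
  · rwa [f0, zero_add]
  by_cases g0 : g = 0
  · rwa [g0, add_zero]
  by_cases h0 : f + g = 0
  · exact Or.inl h0
  exact Or.inr ((le_min (hf.resolve_left f0) (hg.resolve_left g0)).trans (P.add f0 g0 h0))

theorem ge_mul {m n : ℤ} {f g : K} (hf : P.Ge m f) (hg : P.Ge n g) : P.Ge (m + n) (f * g) := by
  by_cases f0 : f = 0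
  · exact Or.inl (by rw [f0, zero_mul])
  by_cases g0 : g = 0
  · exact Or.inl (by rw [g0, mul_zero])
  exact Or.inr (by
    rw [P.mul f0 g0]
    exact add_le_add (hf.resolve_left f0) (hg.resolve_left g0))

theorem ge_neg {n : ℤ} {f : K} (hf : P.Ge n f) : P.Ge n (-f) := by
  by_cases f0 : f = 0
  · exact Or.inl (by rw [f0, neg_zero])
  exact Or.inr (by rw [nu_neg P f0]; exact hf.resolve_left f0)

theorem ge_const (c : F) : P.Ge 0 (algebraMap F K c) := by
  by_cases h : c = 0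
  · exact Or.inl (by rw [h, map_zero])
  exact Or.inr (P.const c h).ge

theorem nu_pow {f : K} (hf : f ≠ 0) (k : ℕ) : P.ν (f ^ k) = P.ν f * k := by
  induction k with
  | zero => simp [nu_one]
  | succ k ih =>
    rw [pow_succ, P.mul (pow_ne_zero _ hf) hf, ih]
    push_cast
    ring

theorem dom {a b : K} (ha : a ≠ 0) (hb : P.Ge (P.ν a + 1) b) : a + b ≠ 0 ∧ P.ν (a + b) = P.ν a := by
  have hlt : ¬ P.Ge (P.ν a + 1) (a + b) := by
    intro h2
    have h3 := ge_add P h2 (ge_neg P hb)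
    rw [add_neg_cancel_right] at h3
    have := h3.resolve_left ha
    omega
  have h0 : a + b ≠ 0 := fun h2 => hlt (Or.inl h2)
  have hge : P.Ge (P.ν a) (a + b) := ge_add P (Or.inr le_rfl) (hb.imp_right fun h => by omega)
  have h5 := hge.resolve_left h0
  have h6 : ¬ P.ν a + 1 ≤ P.ν (a + b) := fun h => hlt (Or.inr h)
  exact ⟨h0, by omega⟩

theorem ge_aeval {ψ : K} (hψ : P.Ge 0 ψ) (p : F[X]) : P.Ge 0 (aeval ψ p) := by
  induction p using Polynomial.induction_on with
  | C a => rw [aeval_C]; exact ge_const P a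
  | add p q hp hq => rw [map_add]; exact ge_add P hp hq
  | monomial n a h =>
    rw [pow_succ, ← mul_assoc, map_mul, aeval_X]
    simpa using ge_mul P h hψ

theorem at_fin {ψ : K} {b : F} (h0 : ψ - algebraMap F K b ≠ 0) (h1 : 1 ≤ P.ν (ψ - algebraMap F K b))
    {p : F[X]} (hp : p ≠ 0) :
    P.ν (aeval ψ p) = P.ν (ψ - algebraMap F K b) * rootMultiplicity b p := by
  obtain ⟨q, hq, hqb⟩ := exists_eq_pow_rootMultiplicity_mul_and_not_dvd p hp b
  have hc : q.eval b ≠ 0 := fun h => hqb (dvd_iff_isRoot.2 h)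
  obtain ⟨r, hr⟩ := X_sub_C_dvd_sub_C_eval (p := q) (a := b)
  have hψ : P.Ge 0 ψ := by
    have := ge_add P (Or.inr (by omega) : P.Ge 0 (ψ - algebraMap F K b)) (ge_const P b)
    rwa [sub_add_cancel] at this
  have hqψ : aeval ψ q = algebraMap F K (q.eval b) + (ψ - algebraMap F K b) * aeval ψ r := by
    have := congrArg (aeval ψ) hr
    simp only [map_sub, map_mul, aeval_X, aeval_C] at this
    linear_combination this
  have hd := dom P (a := algebraMap F K (q.eval b)) (b := (ψ - algebraMap F K b) * aeval ψ r)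
    ((_root_.map_ne_zero _).2 hc) (by
      rw [P.const _ hc]
      simpa using ge_mul P (Or.inr h1 : P.Ge 1 _) (ge_aeval P hψ r))
  rw [← hqψ, P.const _ hc] at hd
  generalize rootMultiplicity b p = k at hq
  rw [hq, map_mul, map_pow, map_sub, aeval_X, aeval_C, P.mul (pow_ne_zero _ h0) hd.1, hd.2,
    nu_pow P h0, add_zero]

theorem at_inf {ψ : K} (h0 : ψ ≠ 0) (h1 : P.ν ψ < 0) (n : ℕ) : ∀ p : F[X], p ≠ 0 → p.natDegree = n →
    aeval ψ p ≠ 0 ∧ P.ν (aeval ψ p) = P.ν ψ * n := by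
  induction n with
  | zero =>
    intro p hp hn
    have hc : p.coeff 0 ≠ 0 := fun h => hp (by rw [eq_C_of_natDegree_eq_zero hn, h, map_zero])
    rw [eq_C_of_natDegree_eq_zero hn, aeval_C]
    exact ⟨(_root_.map_ne_zero _).2 hc, by rw [P.const _ hc]; simp⟩
  | succ n ih =>
    intro p hp hn
    have hq : p.divX ≠ 0 := fun h => by
      rw [divX_eq_zero_iff] at h
      rw [h, natDegree_C] at hn
      omega
    obtain ⟨k1, k2⟩ := ih p.divX hq (by rw [natDegree_divX_eq_natDegree_tsub_one, hn]; rfl)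
    have he : aeval ψ p = aeval ψ p.divX * ψ + algebraMap F K (p.coeff 0) := by
      conv_lhs => rw [← divX_mul_X_add p]
      rw [map_add, map_mul, aeval_X, aeval_C]
    have hν : P.ν (aeval ψ p.divX * ψ) = P.ν ψ * ((n + 1 : ℕ) : ℤ) := by
      rw [P.mul k1 h0, k2]
      push_cast
      ring
    have hd := dom P (b := algebraMap F K (p.coeff 0)) (mul_ne_zero k1 h0)
      ((ge_const P _).imp_right fun h => le_trans (by
        rw [hν]
        have : P.ν ψ * ((n + 1 : ℕ) : ℤ) < 0 := mul_neg_of_neg_of_pos h1 (by positivity)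
        omega) h)
    rw [he]
    exact ⟨hd.1, hd.2.trans hν⟩

end COMP

open COMP in
theorem bCOMP : St_COMP := by
  intro F K _ _ _ ψ g hg0 hg
  obtain ⟨p, q, rfl⟩ := (IntermediateField.mem_adjoin_simple_iff F g).1 hg
  have p0 : aeval ψ p ≠ 0 := (div_ne_zero_iff.1 hg0).1
  have q0 : aeval ψ q ≠ 0 := (div_ne_zero_iff.1 hg0).2
  have hp : p ≠ 0 := fun h => p0 (by rw [h, map_zero])
  have hq : q ≠ 0 := fun h => q0 (by rw [h, map_zero])
  refine ⟨fun b => (rootMultiplicity b p : ℤ) - rootMultiplicity b q,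
    (p.natDegree : ℤ) - q.natDegree, fun P => ⟨fun b h0 h1 => ?_, fun h0 h1 => ?_⟩⟩
  · rw [div_eq_mul_inv, P.mul p0 (inv_ne_zero q0), nu_inv P q0, at_fin P h0 h1 hp,
      at_fin P h0 h1 hq]
    ring
  · rw [div_eq_mul_inv, P.mul p0 (inv_ne_zero q0), nu_inv P q0, (at_inf P h0 h1 _ p hp rfl).2,
      (at_inf P h0 h1 _ q hq rfl).2]
    ring

end Pool.Agent.Lib.EN39
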