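import Pool.Agent.Lib.EN39.Defs

/-! Rows DER and DC: extension of derivations. -/

namespace Pool.Agent.Lib.EN39

open Polynomial

namespace DER_

theorem ext (R L : Type) [CommRing R] [Field L] [Algebra R L] [Algebra.FormallySmooth R L]
    (δ : R → L) (hadd : ∀ a b, δ (a + b) = δ a + δ b)
    (hmul : ∀ a b, δ (a * b) = algebraMap R L a * δ b + algebraMap R L b * δ a) :
    ∃ d : Der L, ∀ r, d.f (algebraMap R L r) = δ r := by
  have h0 : δ 0 = 0 := by
    have h := hadd 0 0
    rw [add_zero] at h
    linear_combination -h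
  have h1 : δ 1 = 0 := by
    have h := hmul 1 1
    rw [mul_one, map_one] at h
    linear_combination -h
  let ψ : R →+* DualNumber L :=
    { toFun := fun r => ⟨algebraMap R L r, δ r⟩
      map_one' := TrivSqZeroExt.ext (map_one _) h1
      map_zero' := TrivSqZeroExt.ext (map_zero _) h0
      map_add' := fun a b => TrivSqZeroExt.ext (map_add _ a b) (hadd a b)
      map_mul' := fun a b => TrivSqZeroExt.ext (map_mul _ a b) (by
        refine Eq.trans ?_ (DualNumber.snd_mul _ _).symm
        show δ (a * b) = algebraMap R L a * δ b + δ a * algebraMap R L b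
        rw [hmul]; ring) }
  let _ : Algebra R (DualNumber L) := ψ.toAlgebra
  let g : DualNumber L →ₐ[R] L :=
    { (TrivSqZeroExt.fstHom L L L).toRingHom with commutes' := fun _ => rfl }
  have hs : Function.Surjective g := fun x => ⟨TrivSqZeroExt.inl x, rfl⟩
  have hn : IsNilpotent (RingHom.ker (g : DualNumber L →+* L)) := by
    refine ⟨2, ?_⟩
    rw [Submodule.pow_succ, Submodule.pow_one, Ideal.zero_eq_bot, eq_bot_iff, Ideal.mul_le]
    intro x hx y hy
    have hx' : x.fst = 0 := hx
    have hy' : y.fst = 0 := hy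
    rw [Ideal.mem_bot]
    exact TrivSqZeroExt.ext (by simp [hx']) (by simp [hx', hy'])
  let f := Algebra.FormallySmooth.liftOfSurjective (AlgHom.id R L) g hs hn
  have hf : ∀ x, (f x).fst = x := fun x =>
    Algebra.FormallySmooth.liftOfSurjective_apply (AlgHom.id R L) g hs hn x
  refine ⟨⟨fun x => (f x).snd, fun a b => by rw [map_add]; rfl, fun a b => ?_⟩, fun r => ?_⟩
  · rw [map_mul, DualNumber.snd_mul, hf, hf]; ring
  · show (f (algebraMap R L r)).snd = δ r
    rw [f.commutes]; rfl

theorem ext_poly (F : Type) [Field F] (δ : Derivation ℤ F[X] F[X]) :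
    ∃ d : Der (RatFunc F), ∀ p : F[X],
      d.f (algebraMap F[X] (RatFunc F) p) = algebraMap F[X] (RatFunc F) (δ p) := by
  have : Algebra.FormallySmooth F[X] (RatFunc F) :=
    Algebra.FormallySmooth.of_isLocalization (nonZeroDivisors F[X])
  exact ext F[X] (RatFunc F) (fun p => algebraMap F[X] (RatFunc F) (δ p))
    (fun a b => by rw [map_add, map_add])
    (fun a b => by rw [δ.leibniz, smul_eq_mul, smul_eq_mul, map_add, map_mul, map_mul])

end DER_

theorem bDER : St_DER := by
  intro F _ D0
  let _ : Differential F :=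
    ⟨Derivation.mk' (AddMonoidHom.mk' D0.f D0.add).toIntLinearMap fun a b => D0.mul a b⟩
  have hc : ∀ (p : F[X]) (i : ℕ), (Differential.mapCoeffs p).coeff i = D0.f (p.coeff i) :=
    fun p i => Differential.coeff_mapCoeffs p i
  obtain ⟨d, hd⟩ := DER_.ext_poly F ((derivative' (R := F)).restrictScalars ℤ)
  obtain ⟨D, hD⟩ := DER_.ext_poly F (Differential.mapCoeffs (A := F))
  have hd' : ∀ p : F[X], d.f (algebraMap F[X] (RatFunc F) p) =
      algebraMap F[X] (RatFunc F) (derivative p) := hd
  refine ⟨d, D, hd', fun p => ⟨_, hD p, ?_⟩, fun c => ?_, ?_, fun f => ?_⟩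
  · refine degree_le_iff_coeff_zero _ _ |>.2 fun m hm => ?_
    rw [hc, coeff_eq_zero_of_degree_lt hm, D0.zero]
  · rw [← RatFunc.algebraMap_C, hD, Differential.mapCoeffs_C, RatFunc.algebraMap_C]; rfl
  · rw [← RatFunc.algebraMap_X, hD, Differential.mapCoeffs_X, map_zero]
  · let E : Der (RatFunc F) :=
      { f := fun f => d.f (D.f f) - D.f (d.f f)
        add := fun a b => by rw [D.add, d.add, d.add, D.add]; ring
        mul := fun a b => by
          rw [D.mul, d.add, d.mul, d.mul, d.mul, D.add, D.mul, D.mul]; ring }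
    have hE : ∀ p : F[X], E.f (algebraMap F[X] (RatFunc F) p) = 0 := fun p => by
      show d.f (D.f _) - D.f (d.f _) = 0
      rw [hD, hd', hd', hD, sub_eq_zero]
      congr 1
      ext n
      have hn : D0.f ((n : F) + 1) = 0 := by simpa using D0.nat (n + 1)
      rw [coeff_derivative, hc, hc, coeff_derivative, D0.mul, hn]; ring
    have h : E.f f = 0 := by
      rw [← RatFunc.num_div_denom f, E.div _ _ (by simpa using f.denom_ne_zero), hE, hE]; simp
    exact sub_eq_zero.1 h

theorem bDC : St_DC := by
  intro a ha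
  classical
  obtain ⟨s, hs, hb⟩ := exists_isTranscendenceBasis_superset (R := ℚ) (s := ({a} : Set ℂ))
    ((algebraicIndependent_unique_type_iff (R := ℚ) (x := ((↑) : ({a} : Set ℂ) → ℂ))).2 ha)
  let R := MvPolynomial s ℚ
  let _ : Algebra R ℂ := (MvPolynomial.aeval ((↑) : s → ℂ)).toRingHom.toAlgebra
  have hinj : Function.Injective (algebraMap R ℂ) := hb.1
  have : FaithfulSMul R ℂ := (faithfulSMul_iff_algebraMap_injective R ℂ).2 hinj
  have : IsScalarTower ℚ R ℂ := IsScalarTower.of_algebraMap_eq' (Subsingleton.elim _ _)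
  have halg : Algebra.IsAlgebraic R ℂ := by
    have h := hb.isAlgebraic
    refine ⟨fun x => ?_⟩
    obtain ⟨p, hp, hx⟩ := h.1 x
    refine ⟨p.map (hb.1.aevalEquiv.symm : _ →+* R), ?_, ?_⟩
    · exact (Polynomial.map_ne_zero_iff hb.1.aevalEquiv.symm.injective).2 hp
    · rw [aeval_def, eval₂_map, ← hx, aeval_def]
      congr 1
      refine RingHom.ext fun y => ?_
      obtain ⟨z, rfl⟩ := hb.1.aevalEquiv.surjective y
      simp only [RingHom.comp_apply, RingHom.coe_coe, AlgEquiv.symm_apply_apply]
      exact (hb.1.algebraMap_aevalEquiv z).symm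
  let _ : Algebra (FractionRing R) ℂ := FractionRing.liftAlgebra R ℂ
  have : IsScalarTower R (FractionRing R) ℂ := FractionRing.isScalarTower_liftAlgebra R ℂ
  have : Algebra.IsAlgebraic (FractionRing R) ℂ := Algebra.IsAlgebraic.extendScalars
    (R := R) (IsFractionRing.injective R (FractionRing R))
  have : Algebra.FormallySmooth R (FractionRing R) :=
    Algebra.FormallySmooth.of_isLocalization (nonZeroDivisors R)
  have : CharZero (FractionRing R) := (algebraMap (FractionRing R) ℂ).charZero
  have : Algebra.FormallyEtale (FractionRing R) ℂ := Algebra.FormallyEtale.of_isSeparable _ _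
  have : Algebra.FormallySmooth R ℂ := Algebra.FormallySmooth.comp R (FractionRing R) ℂ
  let i : s := ⟨a, hs rfl⟩
  obtain ⟨d, hd⟩ := DER_.ext R ℂ (fun r => algebraMap R ℂ (MvPolynomial.pderiv i r))
    (fun x y => by rw [map_add, map_add])
    (fun x y => by rw [Derivation.leibniz, smul_eq_mul, smul_eq_mul, map_add, map_mul, map_mul])
  refine ⟨d, ?_⟩
  have e : algebraMap R ℂ (MvPolynomial.X i) = a := MvPolynomial.aeval_X _ i
  rw [← e, hd, MvPolynomial.pderiv_X_self, map_one]
  exact one_ne_zero

end Pool.Agent.Lib.EN39
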