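import Pool.Agent.Lib.EN39.Blue2

/-! Row KAP: a rational function ramified over `b1 b2 b3 ∞` away from `0 1 a ∞` is unramified
elsewhere. -/

namespace Pool.Agent.Lib.EN39

namespace KAP_

variable {F K : Type} [Field F] [Field K] [Algebra F K] (P : Pl F K)

theorem nu_one : P.ν 1 = 0 := by simpa using P.const 1 one_ne_zero

theorem nu_inv {f : K} (hf : f ≠ 0) : P.ν f⁻¹ = -P.ν f := by
  have h := P.mul hf (inv_ne_zero hf)
  rw [mul_inv_cancel₀ hf, nu_one] at h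
  omega

theorem nu_neg {f : K} (hf : f ≠ 0) : P.ν (-f) = P.ν f := by
  have h1 : P.ν (-1 : K) = 0 := by simpa using P.const (-1) (by simp)
  have h := P.mul (f := -1) (g := f) (by simp) hf
  rw [neg_one_mul, h1] at h
  omega

theorem ge_nu (f : K) : P.Ge (P.ν f) f := Or.inr le_rfl

theorem ge_mono {m n : ℤ} {f : K} (h : P.Ge n f) (hmn : m ≤ n) : P.Ge m f :=
  h.imp id fun h => le_trans hmn h

theorem ge_mul {m n : ℤ} {f g : K} (hf : P.Ge m f) (hg : P.Ge n g) : P.Ge (m + n) (f * g) := by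
  by_cases h0 : f = 0
  · left; simp [h0]
  by_cases h1 : g = 0
  · left; simp [h1]
  right
  rw [P.mul h0 h1]
  have := hf.resolve_left h0
  have := hg.resolve_left h1
  omega

theorem ge_add {n : ℤ} {f g : K} (hf : P.Ge n f) (hg : P.Ge n g) : P.Ge n (f + g) := by
  by_cases h0 : f = 0
  · simpa [h0] using hg
  by_cases h1 : g = 0
  · simpa [h1] using hf
  by_cases h2 : f + g = 0
  · exact Or.inl h2
  right
  have h := P.add h0 h1 h2
  have := hf.resolve_left h0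
  have := hg.resolve_left h1
  omega

theorem ge_neg {n : ℤ} {f : K} (hf : P.Ge n f) : P.Ge n (-f) := by
  by_cases h0 : f = 0
  · left; simp [h0]
  right
  rw [nu_neg P h0]
  exact hf.resolve_left h0

theorem ge_const (c : F) : P.Ge 0 (algebraMap F K c) := by
  by_cases h : c = 0
  · left; simp [h]
  · right; rw [P.const c h]

theorem ge_inv {f : K} (hf : f ≠ 0) : P.Ge (-P.ν f) f⁻¹ := Or.inr (nu_inv P hf).ge

theorem nu_add {f g : K} (hf : f ≠ 0) (hg : P.Ge (P.ν f + 1) g) :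
    f + g ≠ 0 ∧ P.ν (f + g) = P.ν f := by
  by_cases h1 : g = 0
  · simp [h1, hf]
  have hg' := hg.resolve_left h1
  have h2 : f + g ≠ 0 := by
    intro h
    have : g = -f := by linear_combination h
    rw [this, nu_neg P hf] at hg'
    omega
  refine ⟨h2, ?_⟩
  have h3 := P.add hf h1 h2
  have h4 := P.add h2 (neg_ne_zero.mpr h1) (by simpa using hf)
  rw [nu_neg P h1, add_neg_cancel_right] at h4
  omega

theorem zpow_log (d : Der K) (n : ℤ) :
    P.ν (P.π ^ n) = n ∧ d.f (P.π ^ n) = n * P.π ^ n * (d.f P.π / P.π) := by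
  have hp := P.π_ne
  induction n using Int.induction_on with
  | zero => simp [nu_one, d.one]
  | succ n ih =>
    rw [zpow_add_one₀ hp, P.mul (zpow_ne_zero _ hp) hp, d.mul, ih.1, ih.2, P.ν_π]
    refine ⟨rfl, ?_⟩
    push_cast
    field_simp
    ring
  | pred n ih =>
    rw [zpow_sub_one₀ hp, P.mul (zpow_ne_zero _ hp) (inv_ne_zero hp), d.mul, ih.1, ih.2,
      nu_inv P hp, P.ν_π, d.inv]
    refine ⟨by ring, ?_⟩
    push_cast
    field_simp
    ring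

/-- logarithmic derivative -/
theorem log_eq (d : Der K) (hd : P.Pres d) {f : K} (hf : f ≠ 0) :
    ∃ w, P.Ge 0 w ∧ d.f f = f * ((P.ν f : K) * (d.f P.π / P.π) + w) := by
  have hp := P.π_ne
  obtain ⟨h1, h2⟩ := zpow_log P d (P.ν f)
  have hz : P.π ^ P.ν f ≠ 0 := zpow_ne_zero _ hp
  set u := f * (P.π ^ P.ν f)⁻¹ with hu
  have hu0 : u ≠ 0 := mul_ne_zero hf (inv_ne_zero hz)
  have hν : P.ν u = 0 := by rw [hu, P.mul hf (inv_ne_zero hz), nu_inv P hz, h1]; ring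
  have hfu : f = P.π ^ P.ν f * u := by rw [hu]; field_simp
  refine ⟨d.f u * u⁻¹, ?_, ?_⟩
  · have := ge_mul P (hd u (Or.inr hν.ge)) (ge_inv P hu0)
    simpa [hν] using this
  · have h3 : d.f f = P.π ^ P.ν f * d.f u + u * d.f (P.π ^ P.ν f) := by
      conv_lhs => rw [hfu]
      exact d.mul _ _
    rw [h3, h2]
    have h4 : f * u⁻¹ = P.π ^ P.ν f := by rw [hu]; field_simp
    linear_combination (-(P.ν f : K) * (d.f P.π / P.π)) * hfu - d.f u * h4

theorem ge_int (n : ℤ) : P.Ge 0 (n : K) := by simpa using ge_const P (n : F)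

theorem ge_der (d : Der K) (hd : P.Pres d) {f : K} (hf : f ≠ 0) : P.Ge (P.ν f - 1) (d.f f) := by
  obtain ⟨w, hw, h⟩ := log_eq P d hd hf
  rw [h]
  have h1 : P.Ge 0 (d.f P.π) := hd _ (Or.inr (by rw [P.ν_π]; norm_num))
  have h2 := ge_mul P (ge_int P (P.ν f)) (ge_mul P h1 (ge_inv P P.π_ne))
  rw [P.ν_π, ← div_eq_mul_inv] at h2
  have h3 := ge_mul P (ge_nu P f) (ge_add P h2 (ge_mono P hw (by norm_num)))
  exact ge_mono P h3 (by omega)

theorem der_ne [CharZero F] (d : Der K) (hd : P.Pres d) (hπ : d.f P.π = -1) {f : K} (hf : f ≠ 0)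
    (hν : P.ν f ≠ 0) : d.f f ≠ 0 := by
  obtain ⟨w, hw, h⟩ := log_eq P d hd hf
  rw [h, hπ]
  have hp := P.π_ne
  have hn : ((P.ν f : ℤ) : F) ≠ 0 := by exact_mod_cast hν
  have h1 : P.ν ((P.ν f : ℤ) : K) = 0 := by simpa using P.const _ hn
  have h0 : ((P.ν f : ℤ) : K) ≠ 0 := by
    have := (map_ne_zero (algebraMap F K)).mpr hn
    simpa using this
  have h2 : (-1 : K) / P.π ≠ 0 := div_ne_zero (by simp) hp
  have h3 : P.ν (((P.ν f : ℤ) : K) * (-1 / P.π)) = -1 := by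
    rw [P.mul h0 h2, h1, neg_div, one_div, nu_neg P (inv_ne_zero hp), nu_inv P hp, P.ν_π]; ring
  exact mul_ne_zero hf (nu_add P (mul_ne_zero h0 h2) (by rw [h3]; simpa using hw)).1

theorem nu_pole {ψ : K} (h0 : ψ ≠ 0) (h : P.ν ψ < 0) (b : F) :
    P.ν (ψ - algebraMap F K b) = P.ν ψ := by
  rw [sub_eq_add_neg]
  exact (nu_add P h0 (ge_mono P (ge_neg P (ge_const P b)) (by omega))).2

theorem nu_off {ψ : K} {b b' : F} (h : 1 ≤ P.ν (ψ - algebraMap F K b)) (hb : b ≠ b') :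
    P.ν (ψ - algebraMap F K b') = 0 := by
  have hc : b - b' ≠ 0 := sub_ne_zero.mpr hb
  have h1 := P.const _ hc
  have h2 := nu_add P ((map_ne_zero (algebraMap F K)).mpr hc) (g := ψ - algebraMap F K b)
    (Or.inr (by rw [h1]; simpa using h))
  have h3 : ψ - algebraMap F K b' = algebraMap F K (b - b') + (ψ - algebraMap F K b) := by
    rw [map_sub]; ring
  rw [h3, h2.2, h1]

/-- order of `κ` in terms of any `ψ - b` -/
theorem ge_kap (d : Der K) (hd : P.Pres d) (hc : ∀ c : F, d.f (algebraMap F K c) = 0) {ψ T : K}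
    (hψ : ∀ b : F, ψ - algebraMap F K b ≠ 0) {k : ℤ} (hT : P.Ge k T) (b b1 b2 b3 : F) :
    P.Ge (2 * P.ν (ψ - algebraMap F K b) - 2 + k - (P.ν (ψ - algebraMap F K b1) +
      P.ν (ψ - algebraMap F K b2) + P.ν (ψ - algebraMap F K b3)))
      (d.f ψ * d.f ψ * T * ((ψ - algebraMap F K b1) * (ψ - algebraMap F K b2) *
        (ψ - algebraMap F K b3))⁻¹) := by
  have h1 := ge_der P d hd (hψ b)
  rw [d.sub, hc, sub_zero] at h1
  have h2 := ge_inv P (mul_ne_zero (mul_ne_zero (hψ b1) (hψ b2)) (hψ b3))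
  rw [P.mul (mul_ne_zero (hψ b1) (hψ b2)) (hψ b3), P.mul (hψ b1) (hψ b2)] at h2
  exact ge_mono P (ge_mul P (ge_mul P (ge_mul P h1 h1) hT) h2) (by omega)

/-- the four possible positions of `ψ` at a place -/
theorem reg (d : Der K) (hd : P.Pres d) (hc : ∀ c : F, d.f (algebraMap F K c) = 0) {ψ T : K}
    (hψ : ∀ b : F, ψ - algebraMap F K b ≠ 0) {k : ℤ} (hT : P.Ge k T) (hk : 0 ≤ k) {b1 b2 b3 : F}
    (h12 : b1 ≠ b2) (h13 : b1 ≠ b3) (h23 : b2 ≠ b3)
    (h : 1 ≤ k ∨ (P.ν ψ ≠ -1 ∧ ∀ b, (b = b1 ∨ b = b2 ∨ b = b3) → P.ν (ψ - algebraMap F K b) ≠ 1)) :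
    P.Ge 0 (d.f ψ * d.f ψ * T * ((ψ - algebraMap F K b1) * (ψ - algebraMap F K b2) *
        (ψ - algebraMap F K b3))⁻¹) := by
  have h0 : ψ ≠ 0 := by simpa using hψ 0
  by_cases hp : P.ν ψ < 0
  · refine ge_mono P (ge_kap P d hd hc hψ hT b1 b1 b2 b3) ?_
    rw [nu_pole P h0 hp, nu_pole P h0 hp, nu_pole P h0 hp]
    rcases h with h | h
    · omega
    · have := h.1; omega
  obtain ⟨b, hb⟩ := P.res ψ h0 (by omega)
  have hb := hb.resolve_left (hψ b)
  refine ge_mono P (ge_kap P d hd hc hψ hT b b1 b2 b3) ?_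
  by_cases e1 : b = b1
  · subst e1
    rw [nu_off P hb h12, nu_off P hb h13]
    rcases h with h | h
    · omega
    · have := h.2 b (Or.inl rfl); omega
  by_cases e2 : b = b2
  · subst e2
    rw [nu_off P hb e1, nu_off P hb h23]
    rcases h with h | h
    · omega
    · have := h.2 b (Or.inr (Or.inl rfl)); omega
  by_cases e3 : b = b3
  · subst e3
    rw [nu_off P hb e1, nu_off P hb e2]
    rcases h with h | h
    · omega
    · have := h.2 b (Or.inr (Or.inr rfl)); omega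
  rw [nu_off P hb e1, nu_off P hb e2, nu_off P hb e3]
  omega

end KAP_

open KAP_ in
theorem bKAP : St_KAP := by
  intro a S ψ b1 b2 b3 h0 hψ hinf h12 h13 h23 _ _ _ hram hpole c b e1 e2 e3
  have hL0 := L_ne 0
  have hdψ : S.d.f ψ ≠ 0 := by
    have h := der_ne S.inf _ S.inf_d (by
      show L 0 ^ 2 * S.d.f S.inf.π = -1
      rw [S.inf_π, S.d.inv, S.d_L]; field_simp) h0 hinf.ne
    exact right_ne_zero_of_mul (show L 0 ^ 2 * S.d.f ψ ≠ 0 from h)
  set T : KK := L 0 * L 1 * L a with hTdef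
  set W : KK := (ψ - algebraMap ℂ KK b1) * (ψ - algebraMap ℂ KK b2) *
    (ψ - algebraMap ℂ KK b3) with hW
  have hκ0 : S.d.f ψ * S.d.f ψ * T * W⁻¹ ≠ 0 :=
    mul_ne_zero (mul_ne_zero (mul_ne_zero hdψ hdψ)
      (mul_ne_zero (mul_ne_zero (L_ne 0) (L_ne 1)) (L_ne a)))
      (inv_ne_zero (mul_ne_zero (mul_ne_zero (hψ b1) (hψ b2)) (hψ b3)))
  have g1 : ∀ x, (S.fin x).Ge 1 (L x) := fun x => Or.inr (S.fin_self x).ge
  have g0 : ∀ x z, (S.fin x).Ge 0 (L z) := fun x z => by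
    by_cases h : z = x
    · rw [h]; exact ge_mono _ (g1 x) (by norm_num)
    · exact Or.inr (S.fin_ne x z h).ge
  have gT : ∀ x, (S.fin x).Ge 0 T := fun x => ge_mul _ (ge_mul _ (g0 x 0) (g0 x 1)) (g0 x a)
  have hfin : ∀ x, (S.fin x).Ge 0 (S.d.f ψ * S.d.f ψ * T * W⁻¹) := by
    intro x
    by_cases hx : x = 0 ∨ x = 1 ∨ x = a
    · have gT1 : (S.fin x).Ge 1 T := by
        rcases hx with rfl | rfl | rfl
        · exact ge_mul _ (ge_mul _ (g1 0) (g0 0 1)) (g0 0 a)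
        · exact ge_mul _ (ge_mul _ (g0 1 0) (g1 1)) (g0 1 a)
        · exact ge_mul _ (ge_mul _ (g0 x 0) (g0 x 1)) (g1 x)
      exact reg _ S.d (S.fin_d x) S.d_C hψ gT1 (by norm_num) h12 h13 h23 (Or.inl le_rfl)
    · push Not at hx
      exact reg _ S.d (S.fin_d x) S.d_C hψ (gT x) le_rfl h12 h13 h23
        (Or.inr ⟨hpole x, fun z hz => hram x z hz hx.1 hx.2.1 hx.2.2⟩)
  have hQ0 : S.inf.Ge 0 (S.d.f ψ * S.d.f ψ * T * W⁻¹) := by
    have gX : ∀ z, S.inf.Ge (-1) (L z) := fun z => Or.inr (S.inf_L z).ge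
    have gi : S.inf.Ge 1 (L 0)⁻¹ := by rw [← S.inf_π]; exact Or.inr S.inf.ν_π.ge
    have gT' := ge_mul _ (ge_mul _ (ge_mul _ (gX 0) (gX 1)) (gX a))
      (ge_mul _ (ge_mul _ gi gi) (ge_mul _ gi gi))
    have h := reg S.inf (S.d.smul (L 0 ^ 2)) S.inf_d
      (fun x => show L 0 ^ 2 * S.d.f _ = 0 by rw [S.d_C, mul_zero]) hψ gT' (by norm_num)
      h12 h13 h23 (Or.inl (by norm_num))
    have e : (S.d.smul (L 0 ^ 2)).f ψ * (S.d.smul (L 0 ^ 2)).f ψ *
        (T * ((L 0)⁻¹ * (L 0)⁻¹ * ((L 0)⁻¹ * (L 0)⁻¹))) * W⁻¹ =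
        S.d.f ψ * S.d.f ψ * T * W⁻¹ := by
      show L 0 ^ 2 * S.d.f ψ * (L 0 ^ 2 * S.d.f ψ) * _ * _ = _
      field_simp
    rwa [e] at h
  obtain ⟨k, hk⟩ := S.inf.res _ hκ0 (hQ0.resolve_left hκ0)
  have hk0 := S.liou _ (fun x => by
    have h := ge_add _ (hfin x) (ge_neg _ (ge_const (S.fin x) k))
    rwa [← sub_eq_add_neg] at h) hk
  by_contra hlt
  have hb : 1 ≤ (S.fin c).ν (ψ - algebraMap ℂ KK b) := by omega
  have h := (ge_kap _ S.d (S.fin_d c) S.d_C hψ (gT c) b b1 b2 b3).resolve_left hκ0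
  rw [nu_off _ hb e1, nu_off _ hb e2, nu_off _ hb e3] at h
  have hk1 : S.d.f ψ * S.d.f ψ * T * W⁻¹ = algebraMap ℂ KK k := sub_eq_zero.mp hk0
  have hk2 : k ≠ 0 := by rintro rfl; exact hκ0 (by rw [hk1, map_zero])
  rw [← hW, hk1, (S.fin c).const k hk2] at h
  omega

end Pool.Agent.Lib.EN39
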