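import Pool.Agent.Lib.EN39.Bas

namespace Pool.Agent.Lib.EN39

namespace LOC

variable {F K : Type} [Field F] [Field K] [Algebra F K] (P : Pl F K)

theorem jl {d D : Der K} (hd : P.Pres d) (hD : P.Pres D) {f g : K} (hf : f ≠ 0) (hg : g ≠ 0) :
    P.Ge (P.ν f + P.ν g - 1) (d.f f * D.f g - D.f f * d.f g) := by
  have r1 := P.log hd hf
  have r2 := P.log hD hf
  have s1 := P.log hd hg
  have s2 := P.log hD hg
  have a := P.ge_dπ hd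
  have b := P.ge_dπ hD
  have k := P.ge_int (P.ν f)
  have l := P.ge_int (P.ν g)
  have t1 := (k.mul a).mul s2
  have t2 := (l.mul b).mul r1
  have t3 := (r1.mul s2).mono (show (0 + -1 + 0 : ℤ) ≤ 0 + 0 by omega)
  have t4 := (k.mul b).mul s1
  have t5 := (l.mul a).mul r2
  have t6 := (r2.mul s1).mono (show (0 + -1 + 0 : ℤ) ≤ 0 + 0 by omega)
  have t := ((P.ge_self f).mul (P.ge_self g)).mul
    (((t1.add t2).add t3).sub ((t4.add t5).add t6))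
  refine Pl.Ge.mono (n := P.ν f + P.ν g + (0 + -1 + 0)) ?_ (by omega)
  have hp := P.π_ne
  have e : d.f f * D.f g - D.f f * d.f g = f * g *
      ((P.ν f : K) * (d.f P.π / P.π) * (D.f g / g - (P.ν g : K) * (D.f P.π / P.π)) +
        (P.ν g : K) * (D.f P.π / P.π) * (d.f f / f - (P.ν f : K) * (d.f P.π / P.π)) +
        (d.f f / f - (P.ν f : K) * (d.f P.π / P.π)) * (D.f g / g - (P.ν g : K) * (D.f P.π / P.π)) -
        ((P.ν f : K) * (D.f P.π / P.π) * (d.f g / g - (P.ν g : K) * (d.f P.π / P.π)) +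
        (P.ν g : K) * (d.f P.π / P.π) * (D.f f / f - (P.ν f : K) * (D.f P.π / P.π)) +
        (D.f f / f - (P.ν f : K) * (D.f P.π / P.π)) *
          (d.f g / g - (P.ν g : K) * (d.f P.π / P.π)))) := by
    field_simp
    ring
  rw [e]
  exact t

theorem pair [CharZero F] {u v : K} (hu : u ≠ 0) (hv : v ≠ 0) {k : ℤ} (hk : k ≠ 0)
    (h : u - v = k) :
    min (P.ν u) (P.ν v) ≤ 0 ∧ min (P.ν v) 0 ≤ P.ν u ∧ min (P.ν u) 0 ≤ P.ν v := by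
  obtain ⟨k1, k2⟩ := P.ν_int hk
  have h1 := P.add hu (neg_ne_zero.2 hv) (by rw [← sub_eq_add_neg, h]; exact k1)
  rw [← sub_eq_add_neg, h, k2, P.ν_neg] at h1
  have e2 : v + k = u := by linear_combination -h
  have h2 := P.add hv k1 (by rw [e2]; exact hu)
  rw [e2, k2] at h2
  have e3 : u + -(k : K) = v := by linear_combination h
  have h3 := P.add hu (neg_ne_zero.2 k1) (by rw [e3]; exact hv)
  rw [e3, P.ν_neg, k2] at h3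
  exact ⟨h1, h2, h3⟩

theorem two (u v : ℤ) (h : min u v ≤ 0 ∧ min v 0 ≤ u ∧ min u 0 ≤ v) :
    (u = 0 ∧ 0 ≤ v) ∨ (v = 0 ∧ 0 < u) ∨ (u < 0 ∧ u = v) := by omega

theorem caseA (a0 a1 a2 : ℤ) (p01 : min a0 a1 ≤ 0 ∧ min a1 0 ≤ a0 ∧ min a0 0 ≤ a1)
    (p20 : min a2 a0 ≤ 0 ∧ min a0 0 ≤ a2 ∧ min a2 0 ≤ a0)
    (p21 : min a2 a1 ≤ 0 ∧ min a1 0 ≤ a2 ∧ min a2 0 ≤ a1) :
    (a0 = 0 ∧ a1 = 0 ∧ a2 = 0) ∨ (0 < a0 ∧ a1 = 0 ∧ a2 = 0) ∨ (a0 = 0 ∧ 0 < a1 ∧ a2 = 0) ∨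
      (a0 = 0 ∧ a1 = 0 ∧ 0 < a2) ∨ (a0 < 0 ∧ a1 = a0 ∧ a2 = a0) := by
  have h1 := two _ _ p01
  have h2 := two _ _ p20
  have h3 := two _ _ p21
  clear p01 p20 p21
  rcases h1 with h | h | h <;> rcases h2 with g | g | g <;> omega

theorem caseB (b1 b2 b3 b4 : ℤ) (q21 : min b2 b1 ≤ 0 ∧ min b1 0 ≤ b2 ∧ min b2 0 ≤ b1)
    (q13 : min b1 b3 ≤ 0 ∧ min b3 0 ≤ b1 ∧ min b1 0 ≤ b3)
    (q41 : min b4 b1 ≤ 0 ∧ min b1 0 ≤ b4 ∧ min b4 0 ≤ b1)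
    (q23 : min b2 b3 ≤ 0 ∧ min b3 0 ≤ b2 ∧ min b2 0 ≤ b3)
    (q42 : min b4 b2 ≤ 0 ∧ min b2 0 ≤ b4 ∧ min b4 0 ≤ b2)
    (q43 : min b4 b3 ≤ 0 ∧ min b3 0 ≤ b4 ∧ min b4 0 ≤ b3) :
    (b1 = 0 ∧ b2 = 0 ∧ b3 = 0 ∧ b4 = 0) ∨ (0 < b1 ∧ b2 = 0 ∧ b3 = 0 ∧ b4 = 0) ∨
      (b1 = 0 ∧ 0 < b2 ∧ b3 = 0 ∧ b4 = 0) ∨ (b1 = 0 ∧ b2 = 0 ∧ 0 < b3 ∧ b4 = 0) ∨
      (b1 = 0 ∧ b2 = 0 ∧ b3 = 0 ∧ 0 < b4) ∨ (b1 < 0 ∧ b2 = b1 ∧ b3 = b1 ∧ b4 = b1) := by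
  have h1 := two _ _ q21
  have h2 := two _ _ q13
  have h3 := two _ _ q41
  have h4 := two _ _ q23
  have h5 := two _ _ q42
  have h6 := two _ _ q43
  clear q21 q13 q41 q23 q42 q43
  rcases lt_trichotomy b1 0 with h | h | h
  · right; right; right; right; right; omega
  · have c2 : 0 ≤ b2 := by omega
    have c3 : 0 ≤ b3 := by omega
    have c4 : 0 ≤ b4 := by omega
    clear h1 h2 h3
    rcases c2.eq_or_lt with e2 | e2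
    · rcases c3.eq_or_lt with e3 | e3
      · rcases c4.eq_or_lt with e4 | e4
        · left; omega
        · right; right; right; right; left; omega
      · right; right; right; left; omega
    · right; right; left; omega
  · right; left; omega

theorem fin (a0 a1 a2 b1 b2 b3 b4 H : ℤ)
    (ca : (a0 = 0 ∧ a1 = 0 ∧ a2 = 0) ∨ (0 < a0 ∧ a1 = 0 ∧ a2 = 0) ∨ (a0 = 0 ∧ 0 < a1 ∧ a2 = 0) ∨
      (a0 = 0 ∧ a1 = 0 ∧ 0 < a2) ∨ (a0 < 0 ∧ a1 = a0 ∧ a2 = a0))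
    (cb : (b1 = 0 ∧ b2 = 0 ∧ b3 = 0 ∧ b4 = 0) ∨ (0 < b1 ∧ b2 = 0 ∧ b3 = 0 ∧ b4 = 0) ∨
      (b1 = 0 ∧ 0 < b2 ∧ b3 = 0 ∧ b4 = 0) ∨ (b1 = 0 ∧ b2 = 0 ∧ 0 < b3 ∧ b4 = 0) ∨
      (b1 = 0 ∧ b2 = 0 ∧ b3 = 0 ∧ 0 < b4) ∨ (b1 < 0 ∧ b2 = b1 ∧ b3 = b1 ∧ b4 = b1))
    (k0 : a0 + b1 - 1 ≤ H ∧ a0 + b2 - 1 ≤ H ∧ a0 + b3 - 1 ≤ H ∧ a0 + b4 - 1 ≤ H)
    (k1 : a1 + b1 - 1 ≤ H ∧ a1 + b2 - 1 ≤ H ∧ a1 + b3 - 1 ≤ H ∧ a1 + b4 - 1 ≤ H)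
    (k2 : a2 + b1 - 1 ≤ H ∧ a2 + b2 - 1 ≤ H ∧ a2 + b3 - 1 ≤ H ∧ a2 + b4 - 1 ≤ H)
    (reg : 0 ≤ a0 → 0 ≤ b1 → 0 ≤ H) :
    -1 ≤ 2 * H - (a0 + a1 + a2 + (b1 + b2 + (b3 + b4))) ∧
    ((a0 + a1 + a2 + (b1 + b2)) % 2 = 0 → (a0 % 2 = 0 → (a2 + (b3 + b4)) % 2 = 0) →
      0 ≤ 2 * H - (a0 + a1 + a2 + (b1 + b2 + (b3 + b4)))) := by
  refine ⟨?_, fun u1 u2 => ?_⟩
  · rcases ca with h | h | h | h | h <;> rcases cb with g | g | g | g | g | g <;> omega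
  · rcases ca with h | h | h | h | h <;> rcases cb with g | g | g | g | g | g <;> omega

end LOC

open LOC in
theorem bLOC : St_LOC := by
  intro F K _ _ _ _ P d D hd hD ξ y h0 h1 h2 h3 h4
  have e3 : y ^ 2 - 1 = (y - 1) * (y + 1) := by ring
  have e4 : y ^ 2 - 4 = (y - 2) * (y + 2) := by ring
  rw [e3] at h3
  rw [e4] at h4
  obtain ⟨g1, g2⟩ := mul_ne_zero_iff.1 h3
  obtain ⟨g3, g4⟩ := mul_ne_zero_iff.1 h4
  rw [e3, e4]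
  set J := d.f ξ * D.f y - D.f ξ * d.f y with hJ
  by_cases hJ0 : J = 0
  · refine ⟨Or.inl (by simp [hJ0]), fun _ _ => Or.inl (by simp [hJ0])⟩
  have key : ∀ e e' : K, d.f e = 0 → D.f e = 0 → d.f e' = 0 → D.f e' = 0 → ξ - e ≠ 0 →
      y - e' ≠ 0 → P.ν (ξ - e) + P.ν (y - e') - 1 ≤ P.ν J := by
    intro e e' a1 a2 a3 a4 a5 a6
    have h := jl P hd hD a5 a6
    rw [d.sub, d.sub, D.sub, D.sub, a1, a2, a3, a4, sub_zero, sub_zero, sub_zero, sub_zero] at h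
    exact h.le hJ0
  have reg : 0 ≤ P.ν ξ → 0 ≤ P.ν (y - 1) → 0 ≤ P.ν J := by
    intro a1 a2
    have b1 : P.Ge 0 ξ := Or.inr a1
    have b2 : P.Ge 0 (y - 1) := Or.inr a2
    have c1 := hd _ b2
    have c2 := hD _ b2
    rw [d.sub, d.one, sub_zero] at c1
    rw [D.sub, D.one, sub_zero] at c2
    exact (((hd _ b1).mul c2).sub ((hD _ b1).mul c1)).le hJ0
  have n1 : ∀ E : Der K, E.f (-1) = 0 := fun E => by rw [E.neg, E.one, neg_zero]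
  have n2 : ∀ E : Der K, E.f (-2) = 0 := fun E => by rw [E.neg, E.two, neg_zero]
  have ky : ∀ e : K, d.f e = 0 → D.f e = 0 → ξ - e ≠ 0 →
      P.ν (ξ - e) + P.ν (y - 1) - 1 ≤ P.ν J ∧ P.ν (ξ - e) + P.ν (y + 1) - 1 ≤ P.ν J ∧
      P.ν (ξ - e) + P.ν (y - 2) - 1 ≤ P.ν J ∧ P.ν (ξ - e) + P.ν (y + 2) - 1 ≤ P.ν J := by
    intro e a1 a2 a3
    refine ⟨key e 1 a1 a2 d.one D.one a3 g1, ?_, key e 2 a1 a2 d.two D.two a3 g3, ?_⟩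
    · simpa using key e (-1) a1 a2 (n1 d) (n1 D) a3 (by simpa using g2)
    · simpa using key e (-2) a1 a2 (n2 d) (n2 D) a3 (by simpa using g4)
  have k0 := ky 0 d.zero D.zero (by simpa using h0)
  have k1 := ky 1 d.one D.one h1
  have k2 := ky (-1) (n1 d) (n1 D) (by simpa using h2)
  rw [sub_zero] at k0
  rw [sub_neg_eq_add] at k2
  have p01 := pair P h0 h1 (k := 1) (by omega) (by push_cast; ring)
  have p20 := pair P h2 h0 (k := 1) (by omega) (by push_cast; ring)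
  have p21 := pair P h2 h1 (k := 2) (by omega) (by push_cast; ring)
  have q21 := pair P g2 g1 (k := 2) (by omega) (by push_cast; ring)
  have q13 := pair P g1 g3 (k := 1) (by omega) (by push_cast; ring)
  have q41 := pair P g4 g1 (k := 3) (by omega) (by push_cast; ring)
  have q23 := pair P g2 g3 (k := 3) (by omega) (by push_cast; ring)
  have q42 := pair P g4 g2 (k := 1) (by omega) (by push_cast; ring)
  have q43 := pair P g4 g3 (k := 4) (by omega) (by push_cast; ring)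
  have hP : ξ * (ξ - 1) * (ξ + 1) ≠ 0 := mul_ne_zero (mul_ne_zero h0 h1) h2
  have vP : P.ν (ξ * (ξ - 1) * (ξ + 1)) = P.ν ξ + P.ν (ξ - 1) + P.ν (ξ + 1) := by
    rw [P.mul (mul_ne_zero h0 h1) h2, P.mul h0 h1]
  have vh : P.ν (J ^ 2 / (ξ * (ξ - 1) * (ξ + 1) * ((y - 1) * (y + 1) * ((y - 2) * (y + 2))))) =
      2 * P.ν J - (P.ν ξ + P.ν (ξ - 1) + P.ν (ξ + 1) + (P.ν (y - 1) + P.ν (y + 1) +
        (P.ν (y - 2) + P.ν (y + 2)))) := by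
    rw [P.ν_div (pow_ne_zero _ hJ0) (mul_ne_zero hP (mul_ne_zero h3 h4)), P.ν_pow hJ0,
      P.mul hP (mul_ne_zero h3 h4), vP, P.mul h3 h4, P.mul g1 g2, P.mul g3 g4]
    push_cast; ring
  rw [P.mul hP h3, vP, P.mul g1 g2, P.mul h2 h4, P.mul g3 g4]
  simp only [Pl.Ge, vh, Int.even_iff]
  have ca := caseA _ _ _ p01 p20 p21
  have cb := caseB _ _ _ _ q21 q13 q41 q23 q42 q43
  have hf := fin _ _ _ _ _ _ _ _ ca cb k0 k1 k2 reg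
  exact ⟨Or.inr hf.1, fun u1 u2 => Or.inr (hf.2 u1 u2)⟩

end Pool.Agent.Lib.EN39
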