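import Pool.Agent.Lib.EN39.Blue2

namespace Pool.Agent.Lib.EN39

open RAM in
theorem bONE (hLOC : St_LOC) : St_ONE := by
  intro a S ξ y hp
  obtain ⟨x0, xm, xp, y1, y4, f0, f1, f2, -, -, -⟩ := hp
  have t0 : L 0 ≠ 0 := L_ne 0
  have g2 : (ξ - 1) * (ξ + 1) * (y ^ 2 - 1) ≠ 0 := mul_ne_zero (mul_ne_zero xm xp) y1
  set W := ξ * (ξ - 1) * (ξ + 1) * ((y ^ 2 - 1) * (y ^ 2 - 4)) with hW
  have W0 : W ≠ 0 := mul_ne_zero (mul_ne_zero (mul_ne_zero x0 xm) xp) (mul_ne_zero y1 y4)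
  set J := S.d.f ξ * S.D.f y - S.D.f ξ * S.d.f y with hJ
  have key : L 0 * (J ^ 2 / W) = 0 := by
    refine S.liou _ (fun c => ?_) ?_
    · obtain ⟨l1, l2⟩ := hLOC ℂ _ (S.fin c) S.d S.D (S.fin_d c) (S.fin_D c) ξ y x0 xm xp y1 y4
      by_cases hc : c = 0
      · have hx : (S.fin c).ν (L 0) = 1 := by rw [hc]; exact S.fin_self 0
        exact ge_mul (S.fin c) (Or.inr hx.ge) l1
      have hx : (S.fin c).ν (L 0) = 0 := S.fin_ne c 0 (Ne.symm hc)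
      have l3 := l2 (by
        rw [show ξ * (ξ - 1) * (ξ + 1) * (y ^ 2 - 1) = ξ * ((ξ - 1) * (ξ + 1) * (y ^ 2 - 1)) by ring,
          (S.fin c).mul x0 g2, Int.even_add', f0 c, f2 c]
        exact ⟨Or.inr, fun h => h.resolve_left hc⟩) (by
        intro hev
        rw [← Int.not_odd_iff_even, f0 c] at hev
        rw [← Int.not_odd_iff_even, f1 c]
        exact fun h => hev (Or.inl (h.resolve_left hc)))
      exact ge_mul (S.fin c) (Or.inr hx.ge) l3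
    · obtain ⟨l1, -⟩ := hLOC ℂ _ S.inf _ S.D S.inf_d S.inf_D ξ y x0 xm xp y1 y4
      have hi : S.inf.Ge 1 (L 0)⁻¹ := Or.inr (by rw [← S.inf_π, Pl.ν_π])
      have l2 := ge_mul S.inf (ge_mul S.inf (ge_mul S.inf hi hi) hi) l1
      have e : L 0 * (J ^ 2 / W) = (L 0)⁻¹ * (L 0)⁻¹ * (L 0)⁻¹ *
          (((S.d.smul (L 0 ^ 2)).f ξ * S.D.f y - S.D.f ξ * (S.d.smul (L 0 ^ 2)).f y) ^ 2 / W) := by
        change _ = _ * ((L 0 ^ 2 * S.d.f ξ * S.D.f y - S.D.f ξ * (L 0 ^ 2 * S.d.f y)) ^ 2 / W)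
        rw [hJ]
        field_simp
      rw [e]
      exact l2.imp_right fun h => le_trans (by norm_num) h
  have := (div_eq_zero_iff.1 ((mul_eq_zero.1 key).resolve_left t0)).resolve_right W0
  exact (pow_eq_zero_iff two_ne_zero).1 this

end Pool.Agent.Lib.EN39
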