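import Pool.Agent.Lib.EN39.Defs

namespace Pool.Agent.Lib.EN39

open Polynomial

namespace PLF

variable {F : Type} [Field F] (c : F)

theorem am_ne {p : F[X]} (hp : p ≠ 0) : algebraMap F[X] (RatFunc F) p ≠ 0 :=
  RatFunc.algebraMap_ne_zero hp

theorem nu_div {p q : F[X]} (hp : p ≠ 0) (hq : q ≠ 0) :
    finν c (algebraMap F[X] (RatFunc F) p / algebraMap F[X] (RatFunc F) q) =
      (rootMultiplicity c p : ℤ) - rootMultiplicity c q := by
  set f := algebraMap F[X] (RatFunc F) p / algebraMap F[X] (RatFunc F) q with hf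
  have f0 : f ≠ 0 := div_ne_zero (am_ne hp) (am_ne hq)
  have h : f.num * q = p * f.denom := (RatFunc.num_mul_eq_mul_denom_iff hq).2 hf
  have h1 := congrArg (rootMultiplicity c) h
  rw [rootMultiplicity_mul (mul_ne_zero (RatFunc.num_ne_zero f0) hq),
    rootMultiplicity_mul (mul_ne_zero hp f.denom_ne_zero)] at h1
  unfold finν
  omega

theorem den_zero {f : RatFunc F} (h : f = 0 ∨ 0 ≤ finν c f) : rootMultiplicity c f.denom = 0 := by
  by_cases f0 : f = 0
  · rw [f0, RatFunc.denom_zero, ← C_1, rootMultiplicity_C]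
  have h1 := h.resolve_left f0
  by_contra h2
  have h3 : 0 < rootMultiplicity c f.denom := Nat.pos_of_ne_zero h2
  have h4 : 0 < rootMultiplicity c f.num := by unfold finν at h1; omega
  rw [rootMultiplicity_pos f.denom_ne_zero] at h3
  rw [rootMultiplicity_pos (RatFunc.num_ne_zero f0)] at h4
  exact not_isUnit_X_sub_C c ((RatFunc.isCoprime_num_denom f).isUnit_of_dvd'
    (dvd_iff_isRoot.2 h4) (dvd_iff_isRoot.2 h3))

/-- the place at `c` -/
noncomputable def pl : Pl F (RatFunc F) where
  ν := finν c
  mul {f g} hf hg := by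
    have h : f * g = algebraMap F[X] (RatFunc F) (f.num * g.num) /
        algebraMap F[X] (RatFunc F) (f.denom * g.denom) := by
      rw [map_mul, map_mul, mul_div_mul_comm, f.num_div_denom, g.num_div_denom]
    have hn := mul_ne_zero (RatFunc.num_ne_zero hf) (RatFunc.num_ne_zero hg)
    have hd := mul_ne_zero f.denom_ne_zero g.denom_ne_zero
    rw [h, nu_div c hn hd, rootMultiplicity_mul hn, rootMultiplicity_mul hd]
    unfold finν
    push_cast
    ring
  add {f g} hf hg hfg := by
    have h : f + g = algebraMap F[X] (RatFunc F) (f.num * g.denom + f.denom * g.num) /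
        algebraMap F[X] (RatFunc F) (f.denom * g.denom) := by
      rw [map_add, map_mul, map_mul, map_mul,
        ← div_add_div _ _ (am_ne f.denom_ne_zero) (am_ne g.denom_ne_zero), f.num_div_denom,
        g.num_div_denom]
    have hn : f.num * g.denom + f.denom * g.num ≠ 0 := fun h0 =>
      hfg (by rw [h, h0, map_zero, zero_div])
    have hd := mul_ne_zero f.denom_ne_zero g.denom_ne_zero
    have h1 := rootMultiplicity_add c hn
    rw [rootMultiplicity_mul (mul_ne_zero (RatFunc.num_ne_zero hf) g.denom_ne_zero),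
      rootMultiplicity_mul (mul_ne_zero f.denom_ne_zero (RatFunc.num_ne_zero hg))] at h1
    rw [h, nu_div c hn hd, rootMultiplicity_mul hd]
    unfold finν
    omega
  const a ha := by
    have h : algebraMap F (RatFunc F) a =
        algebraMap F[X] (RatFunc F) (C a) / algebraMap F[X] (RatFunc F) (C 1) := by simp
    rw [h, nu_div c (C_ne_zero.2 ha) (C_ne_zero.2 one_ne_zero), rootMultiplicity_C,
      rootMultiplicity_C]
    rfl
  π := RatFunc.X - RatFunc.C c
  π_ne := by simpa using am_ne (X_sub_C_ne_zero c)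
  ν_π := by
    have h : (RatFunc.X - RatFunc.C c : RatFunc F) =
        algebraMap F[X] (RatFunc F) (X - C c) / algebraMap F[X] (RatFunc F) (C 1) := by simp
    rw [h, nu_div c (X_sub_C_ne_zero c) (C_ne_zero.2 one_ne_zero), rootMultiplicity_C,
      rootMultiplicity_X_sub_C_self]
    rfl
  res f _ h0 := by
    have hd := den_zero c (Or.inr h0)
    have he : f.denom.eval c ≠ 0 := fun h =>
      ((rootMultiplicity_pos f.denom_ne_zero).2 h).ne' hd
    refine ⟨f.num.eval c / f.denom.eval c, ?_⟩
    set b := f.num.eval c / f.denom.eval c with hb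
    have h : f - algebraMap F (RatFunc F) b = algebraMap F[X] (RatFunc F) (f.num - C b * f.denom) /
        algebraMap F[X] (RatFunc F) f.denom := by
      rw [map_sub, map_mul, sub_div, f.num_div_denom, mul_div_cancel_right₀ _ (am_ne f.denom_ne_zero)]
      simp
    by_cases hn : f.num - C b * f.denom = 0
    · exact Or.inl (by rw [h, hn, map_zero, zero_div])
    refine Or.inr ?_
    have h1 : 0 < rootMultiplicity c (f.num - C b * f.denom) := by
      rw [rootMultiplicity_pos hn, IsRoot, eval_sub, eval_mul, eval_C, hb, div_mul_cancel₀ _ he,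
        sub_self]
    rw [h, nu_div c hn f.denom_ne_zero, hd]
    omega

end PLF

open PLF in
theorem bPLF : St_PLF := by
  intro F _ c
  refine ⟨pl c, rfl, rfl, fun d hd f hf => ?_⟩
  have h0 := den_zero c hf
  obtain ⟨p, hp⟩ := hd f.num
  obtain ⟨q, hq⟩ := hd f.denom
  have h : d.f f = algebraMap F[X] (RatFunc F) (p * f.denom - f.num * q) /
      algebraMap F[X] (RatFunc F) (f.denom * f.denom) := by
    conv_lhs => rw [← f.num_div_denom]
    rw [d.div _ _ (am_ne f.denom_ne_zero), hp, hq, map_sub, map_mul, map_mul, map_mul, sq]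
  by_cases hn : p * f.denom - f.num * q = 0
  · exact Or.inl (by rw [h, hn, map_zero, zero_div])
  refine Or.inr ?_
  have hd2 := mul_ne_zero f.denom_ne_zero f.denom_ne_zero
  change 0 ≤ finν c (d.f f)
  rw [h, nu_div c hn hd2, rootMultiplicity_mul hd2, h0]
  omega

theorem bLIOU : St_LIOU := by
  intro F _ _ f h1 h2
  by_contra f0
  have h3 := h2.resolve_left f0
  have hd : f.denom.natDegree = 0 := by
    by_contra h
    obtain ⟨c, hc⟩ := IsAlgClosed.exists_root f.denom (fun h4 => h (natDegree_eq_zero_iff_degree_le_zero.2 h4.le))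
    exact ((rootMultiplicity_pos f.denom_ne_zero).2 hc).ne' (PLF.den_zero c (h1 c))
  unfold infν RatFunc.intDegree at h3
  omega

end Pool.Agent.Lib.EN39
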