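import Pool.Agent.Lib.EN39.Defs

namespace Pool.Agent.Lib.EN39

open Polynomial

namespace PLI

variable {F : Type} [Field F]

theorem am_ne {p : F[X]} (hp : p ≠ 0) : algebraMap F[X] (RatFunc F) p ≠ 0 :=
  RatFunc.algebraMap_ne_zero hp

theorem nu_div {p q : F[X]} (hp : p ≠ 0) (hq : q ≠ 0) :
    infν (algebraMap F[X] (RatFunc F) p / algebraMap F[X] (RatFunc F) q) =
      (q.natDegree : ℤ) - p.natDegree := by
  set f := algebraMap F[X] (RatFunc F) p / algebraMap F[X] (RatFunc F) q with hf
  have f0 : f ≠ 0 := div_ne_zero (am_ne hp) (am_ne hq)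
  have h : f.num * q = p * f.denom := (RatFunc.num_mul_eq_mul_denom_iff hq).2 hf
  have h1 := congrArg natDegree h
  rw [natDegree_mul (RatFunc.num_ne_zero f0) hq, natDegree_mul hp f.denom_ne_zero] at h1
  unfold infν RatFunc.intDegree
  omega

theorem res (f : RatFunc F) (h0 : 0 ≤ infν f) :
    ∃ b : F, f - algebraMap F (RatFunc F) b = 0 ∨ 1 ≤ infν (f - algebraMap F (RatFunc F) b) := by
  refine ⟨f.num.coeff f.denom.natDegree, ?_⟩
  set b := f.num.coeff f.denom.natDegree with hb
  have h : f - algebraMap F (RatFunc F) b = algebraMap F[X] (RatFunc F) (f.num - C b * f.denom) /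
      algebraMap F[X] (RatFunc F) f.denom := by
    rw [map_sub, map_mul, sub_div, f.num_div_denom,
      mul_div_cancel_right₀ _ (am_ne f.denom_ne_zero)]
    simp
  by_cases hn : f.num - C b * f.denom = 0
  · exact Or.inl (by rw [h, hn, map_zero, zero_div])
  refine Or.inr ?_
  have h1 : f.num.natDegree ≤ f.denom.natDegree := by
    unfold infν RatFunc.intDegree at h0
    omega
  have h2 : (f.num - C b * f.denom).natDegree ≤ f.denom.natDegree :=
    (natDegree_sub_le _ _).trans (max_le h1 (natDegree_C_mul_le _ _))
  have h3 : (f.num - C b * f.denom).natDegree ≠ f.denom.natDegree := by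
    intro h4
    apply leadingCoeff_ne_zero.2 hn
    rw [leadingCoeff, h4, coeff_sub, coeff_C_mul, (RatFunc.monic_denom f).coeff_natDegree, mul_one,
      hb, sub_self]
  rw [h, nu_div hn f.denom_ne_zero]
  omega

/-- the place at infinity -/
noncomputable def pl : Pl F (RatFunc F) where
  ν := infν
  mul {f g} hf hg := by
    unfold infν
    rw [RatFunc.intDegree_mul hf hg, neg_add]
  add {f g} _ hg hfg := by
    have := RatFunc.intDegree_add_le hg hfg
    unfold infν
    omega
  const a _ := by
    unfold infν
    rw [RatFunc.algebraMap_eq_C, RatFunc.intDegree_C, neg_zero]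
  π := RatFunc.X⁻¹
  π_ne := inv_ne_zero RatFunc.X_ne_zero
  ν_π := by
    have h : (RatFunc.X⁻¹ : RatFunc F) =
        algebraMap F[X] (RatFunc F) 1 / algebraMap F[X] (RatFunc F) X := by simp
    rw [h, nu_div one_ne_zero X_ne_zero, natDegree_X, natDegree_one]
    rfl
  res f _ h0 := res f h0

theorem d_eq (d : Der (RatFunc F)) (f : RatFunc F) {p q : F[X]}
    (hp : d.f (algebraMap F[X] (RatFunc F) f.num) = algebraMap F[X] (RatFunc F) p)
    (hq : d.f (algebraMap F[X] (RatFunc F) f.denom) = algebraMap F[X] (RatFunc F) q) :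
    d.f f = algebraMap F[X] (RatFunc F) (p * f.denom - f.num * q) /
      algebraMap F[X] (RatFunc F) (f.denom * f.denom) := by
  conv_lhs => rw [← f.num_div_denom]
  rw [d.div _ _ (am_ne f.denom_ne_zero), hp, hq, map_sub, map_mul, map_mul, map_mul, sq]

end PLI

open PLI in
theorem bPLI : St_PLI := by
  intro F _
  refine ⟨pl, rfl, rfl, fun d hd f hf => ?_, fun d hd f hf => ?_⟩
  · by_cases f0 : f = 0
    · exact Or.inl (by rw [f0, d.zero])
    have h0 : 0 ≤ infν f := hf.resolve_left f0
    obtain ⟨p, hp, hp'⟩ := hd f.num
    obtain ⟨q, hq, hq'⟩ := hd f.denom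
    have h := d_eq d f hp hq
    by_cases hn : p * f.denom - f.num * q = 0
    · exact Or.inl (by rw [h, hn, map_zero, zero_div])
    refine Or.inr ?_
    have k1 := natDegree_le_natDegree hp'
    have k2 := natDegree_le_natDegree hq'
    have k3 := natDegree_sub_le (p * f.denom) (f.num * q)
    have k4 := natDegree_mul_le (p := p) (q := f.denom)
    have k5 := natDegree_mul_le (p := f.num) (q := q)
    change 0 ≤ infν (d.f f)
    rw [h, nu_div hn (mul_ne_zero f.denom_ne_zero f.denom_ne_zero),
      natDegree_mul f.denom_ne_zero f.denom_ne_zero]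
    unfold infν RatFunc.intDegree at h0
    omega
  · by_cases f0 : f = 0
    · exact Or.inl (by rw [f0, d.zero])
    obtain ⟨b, hb⟩ := res f (hf.resolve_left f0)
    have hc : d.f (algebraMap F (RatFunc F) b) = 0 := by
      have := hd (C b)
      rw [derivative_C, map_zero] at this
      rw [← this]
      simp
    have he : d.f f = d.f (f - algebraMap F (RatFunc F) b) := by rw [d.sub, hc, sub_zero]
    rw [he]
    generalize f - algebraMap F (RatFunc F) b = g at hb
    rcases hb with hb | hb
    · exact Or.inl (by rw [hb, d.zero])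
    have h := d_eq d g (hd g.num) (hd g.denom)
    by_cases hn : derivative g.num * g.denom - g.num * derivative g.denom = 0
    · exact Or.inl (by rw [h, hn, map_zero, zero_div])
    refine Or.inr ?_
    unfold infν RatFunc.intDegree at hb
    have k3 := natDegree_sub_le (derivative g.num * g.denom) (g.num * derivative g.denom)
    have k4 : (derivative g.num * g.denom).natDegree + 2 ≤ 2 * g.denom.natDegree := by
      by_cases h1 : g.num.natDegree = 0
      · rw [derivative_of_natDegree_zero h1, zero_mul, natDegree_zero]
        omega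
      · have := natDegree_derivative_lt h1
        have := natDegree_mul_le (p := derivative g.num) (q := g.denom)
        omega
    have k5 := natDegree_mul_le (p := g.num) (q := derivative g.denom)
    have k6 := natDegree_derivative_lt (p := g.denom) (by omega)
    change 2 ≤ infν (d.f g)
    rw [h, nu_div hn (mul_ne_zero g.denom_ne_zero g.denom_ne_zero),
      natDegree_mul g.denom_ne_zero g.denom_ne_zero]
    omega

end Pool.Agent.Lib.EN39
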