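import Pool.Agent.Lib.EN39.Defs

namespace Pool.Agent.Lib.EN39

namespace RAM

variable {F K : Type} [Field F] [Field K] [Algebra F K] (P : Pl F K)

theorem nu_one : P.ν 1 = 0 := by simpa using P.const 1 one_ne_zero

theorem nu_inv {f : K} (hf : f ≠ 0) : P.ν f⁻¹ = -P.ν f := by
  have h := P.mul hf (inv_ne_zero hf)
  rw [mul_inv_cancel₀ hf, nu_one] at h
  omega

theorem nu_neg {f : K} (hf : f ≠ 0) : P.ν (-f) = P.ν f := by
  have h := P.mul (f := algebraMap F K (-1)) (by simp) hf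
  rw [P.const (-1) (by simp)] at h
  simpa using h

theorem nu_zpow (n : ℤ) : P.ν (P.π ^ n) = n := by
  induction n with
  | zero => rw [zpow_zero, nu_one]
  | succ n ih =>
    rw [zpow_add_one₀ P.π_ne, P.mul (zpow_ne_zero _ P.π_ne) P.π_ne, ih, P.ν_π]
  | pred n ih =>
    rw [zpow_sub_one₀ P.π_ne, P.mul (zpow_ne_zero _ P.π_ne) (inv_ne_zero P.π_ne), ih,
      nu_inv P P.π_ne, P.ν_π]
    ring

theorem ge_add {n : ℤ} {f g : K} (hf : P.Ge n f) (hg : P.Ge n g) : P.Ge n (f + g) := by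
  by_cases f0 : f = 0
  · rwa [f0, zero_add]
  by_cases g0 : g = 0
  · rwa [g0, add_zero]
  by_cases h0 : f + g = 0
  · exact Or.inl h0
  exact Or.inr ((le_min (hf.resolve_left f0) (hg.resolve_left g0)).trans (P.add f0 g0 h0))

theorem ge_mul {m n : ℤ} {f g : K} (hf : P.Ge m f) (hg : P.Ge n g) : P.Ge (m + n) (f * g) := by
  by_cases f0 : f = 0
  · exact Or.inl (by rw [f0, zero_mul])
  by_cases g0 : g = 0
  · exact Or.inl (by rw [g0, mul_zero])
  exact Or.inr (by
    rw [P.mul f0 g0]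
    exact add_le_add (hf.resolve_left f0) (hg.resolve_left g0))

theorem ge_neg {n : ℤ} {f : K} (hf : P.Ge n f) : P.Ge n (-f) := by
  by_cases f0 : f = 0
  · exact Or.inl (by rw [f0, neg_zero])
  exact Or.inr (by rw [nu_neg P f0]; exact hf.resolve_left f0)

theorem ge_const (c : F) : P.Ge 0 (algebraMap F K c) := by
  by_cases h : c = 0
  · exact Or.inl (by rw [h, map_zero])
  exact Or.inr (P.const c h).ge

theorem d_zpow (d : Der K) {a : K} (ha : a ≠ 0) (n : ℤ) :
    d.f (a ^ n) = n * a ^ n * (d.f a * a⁻¹) := by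
  induction n with
  | zero => simp [d.one]
  | succ n ih =>
    rw [zpow_add_one₀ ha, d.mul, ih]
    push_cast
    field_simp
    ring
  | pred n ih =>
    rw [zpow_sub_one₀ ha, d.mul, ih, d.inv]
    push_cast
    field_simp
    ring

/-- the logarithmic derivative up to an integral element -/
theorem logd (d : Der K) (hd : P.Pres d) {f : K} (hf : f ≠ 0) :
    ∃ w, P.Ge 0 w ∧ d.f f = f * ((P.ν f : K) * (d.f P.π * P.π⁻¹) + w) := by
  have hp : P.π ^ P.ν f ≠ 0 := zpow_ne_zero _ P.π_ne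
  set u := f * (P.π ^ P.ν f)⁻¹ with hu
  have hu0 : u ≠ 0 := mul_ne_zero hf (inv_ne_zero hp)
  have hν : P.ν u = 0 := by
    rw [hu, P.mul hf (inv_ne_zero hp), nu_inv P hp, nu_zpow, add_neg_cancel]
  have hfu : f = u * P.π ^ P.ν f := by rw [hu, inv_mul_cancel_right₀ hp]
  refine ⟨d.f u * u⁻¹, ?_, ?_⟩
  · have := ge_mul P (hd u (Or.inr hν.ge)) (n := 0) (g := u⁻¹)
      (Or.inr (by rw [nu_inv P hu0, hν, neg_zero]))
    rwa [add_zero] at this
  · generalize P.ν f = n at hp hfu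
    rw [hfu, d.mul, d_zpow d P.π_ne]
    field_simp

/-- exact order of the derivative -/
theorem nu_d [CharZero F] (d : Der K) (hd : P.Pres d) (h1 : d.f P.π = 1) {f : K} (hf : f ≠ 0)
    (hn : P.ν f ≠ 0) : d.f f ≠ 0 ∧ P.ν (d.f f) = P.ν f - 1 := by
  obtain ⟨w, hw, h⟩ := logd P d hd hf
  rw [h1, one_mul] at h
  have hc : ((P.ν f : ℤ) : F) ≠ 0 := Int.cast_ne_zero.2 hn
  have hcK : ((P.ν f : ℤ) : K) = algebraMap F K (P.ν f : F) := (map_intCast _ _).symm
  have hc0 : ((P.ν f : ℤ) : K) ≠ 0 := by rw [hcK]; exact (map_ne_zero _).2 hc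
  set s := (P.ν f : K) * P.π⁻¹ with hs
  have hs0 : s ≠ 0 := mul_ne_zero hc0 (inv_ne_zero P.π_ne)
  have hsν : P.ν s = -1 := by
    rw [hs, P.mul hc0 (inv_ne_zero P.π_ne), hcK, P.const _ hc, nu_inv P P.π_ne, P.ν_π, zero_add]
  have hlt : ¬ P.Ge 0 (s + w) := by
    intro h2
    have h3 := ge_add P h2 (ge_neg P hw)
    rw [add_neg_cancel_right] at h3
    have := h3.resolve_left hs0
    omega
  have h0 : s + w ≠ 0 := fun h2 => hlt (Or.inl h2)
  have hge : P.Ge (-1) (s + w) :=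
    ge_add P (Or.inr hsν.ge) (hw.imp_right fun h => by omega)
  have h4 : P.ν (s + w) = -1 := by
    have h5 := hge.resolve_left h0
    have h6 : ¬ 0 ≤ P.ν (s + w) := fun h => hlt (Or.inr h)
    omega
  refine ⟨by rw [h]; exact mul_ne_zero hf h0, ?_⟩
  rw [h, P.mul hf h0, h4]
  ring

end RAM

open RAM in
theorem bRAM : St_RAM := by
  intro F K _ _ _ _ P d D hd hD h1 hc hcom v ξ y hξ hDξ hDy hv g hg0 hg
  have hv0 : v ≠ 0 := fun h => hv (Or.inl h)
  have hvν : P.ν v < 0 := not_le.1 fun h => hv (Or.inr h)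
  set M : Set K := {a | D.f a + v * d.f a = 0} with hM
  have hunit : ∀ a ∈ M, P.Ge 0 a := by
    intro a ha
    by_contra h
    have a0 : a ≠ 0 := fun h2 => h (Or.inl h2)
    have hlt : P.ν a < 0 := not_le.1 fun h2 => h (Or.inr h2)
    obtain ⟨h2, h3⟩ := nu_d P d hd h1 a0 hlt.ne
    obtain ⟨w, hw, h4⟩ := logd P D hD a0
    have h5 : P.Ge (-1) ((P.ν a : K) * (D.f P.π * P.π⁻¹) + w) := by
      refine ge_add P ?_ (hw.imp_right fun h => by omega)
      have k1 : P.Ge 0 ((P.ν a : ℤ) : K) := by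
        rw [← map_intCast (algebraMap F K)]
        exact ge_const P _
      have k2 : P.Ge 0 (D.f P.π) := hD _ (Or.inr (by rw [P.ν_π]; omega))
      have k3 : P.Ge (-1) P.π⁻¹ := Or.inr (by rw [nu_inv P P.π_ne, P.ν_π])
      simpa using ge_mul P k1 (ge_mul P k2 k3)
    have h6 := ge_neg P (ge_mul P (Or.inr le_rfl : P.Ge (P.ν a) a) h5)
    have h7 : -D.f a = v * d.f a := by
      have : D.f a + v * d.f a = 0 := ha
      linear_combination -this
    rw [← h4, h7] at h6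
    have h8 := h6.resolve_left (mul_ne_zero hv0 h2)
    rw [P.mul hv0 h2, h3] at h8
    omega
  have hr : 1 ≤ P.ν (d.f ξ) := by
    have h6 := ge_neg P (hD ξ (hunit ξ hDξ))
    have h7 : -D.f ξ = v * d.f ξ := by linear_combination -hDξ
    rw [h7] at h6
    have h8 := h6.resolve_left (mul_ne_zero hv0 hξ)
    rw [P.mul hv0 hξ] at h8
    omega
  have hdM : ∀ a ∈ M, D.f (d.f a) + v * d.f (d.f a) = -(d.f v * d.f a) := by
    intro a ha
    have h2 : d.f (D.f a + v * d.f a) = 0 := by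
      have : D.f a + v * d.f a = 0 := ha
      rw [this, d.zero]
    rw [d.add, d.mul, hcom] at h2
    linear_combination h2
  have hδM : ∀ a ∈ M, d.f a / d.f ξ ∈ M := by
    intro a ha
    have k1 := hdM a ha
    have k2 := hdM ξ hDξ
    change D.f (d.f a / d.f ξ) + v * d.f (d.f a / d.f ξ) = 0
    rw [D.div _ _ hξ, d.div _ _ hξ]
    field_simp
    linear_combination d.f ξ * k1 - d.f a * k2
  have hR : ∀ a ∈ Algebra.adjoin F M, P.Ge 0 a ∧ d.f a / d.f ξ ∈ Algebra.adjoin F M := by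
    intro a ha
    induction ha using Algebra.adjoin_induction with
    | mem x hx => exact ⟨hunit x hx, Algebra.subset_adjoin (hδM x hx)⟩
    | algebraMap r => exact ⟨ge_const P r, by rw [hc, zero_div]; exact zero_mem _⟩
    | add x z _ _ hx hz =>
      exact ⟨ge_add P hx.1 hz.1, by rw [d.add, add_div]; exact add_mem hx.2 hz.2⟩
    | mul x z mx mz hx hz =>
      refine ⟨by simpa using ge_mul P hx.1 hz.1, ?_⟩
      rw [d.mul, add_div, mul_div_assoc, mul_div_assoc]
      exact add_mem (mul_mem mx hz.2) (mul_mem mz hx.2)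
  have hdiv : ∀ (n : ℕ) (a : K), a ∈ Algebra.adjoin F M → a ≠ 0 → P.ν a = n →
      (P.ν (d.f ξ) + 1) ∣ P.ν a := by
    intro n
    induction n using Nat.strong_induction_on with
    | _ n ih =>
      intro a ha a0 hn
      by_cases h0 : P.ν a = 0
      · rw [h0]
        exact dvd_zero _
      obtain ⟨h2, h3⟩ := nu_d P d hd h1 a0 h0
      have hb := (hR a ha).2
      have b0 : d.f a / d.f ξ ≠ 0 := div_ne_zero h2 hξ
      have hbν : P.ν (d.f a / d.f ξ) = P.ν a - (P.ν (d.f ξ) + 1) := by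
        rw [div_eq_mul_inv, P.mul h2 (inv_ne_zero hξ), nu_inv P hξ, h3]
        ring
      have hb0 := (hR _ hb).1.resolve_left b0
      have := ih (P.ν (d.f a / d.f ξ)).toNat (by omega) _ hb b0 (by omega)
      rw [hbν] at this
      exact (dvd_sub_left dvd_rfl).1 this
  have hdiv' : ∀ a ∈ Algebra.adjoin F ({ξ, y} : Set K), a ≠ 0 → (P.ν (d.f ξ) + 1) ∣ P.ν a := by
    intro a ha a0
    have ha' : a ∈ Algebra.adjoin F M :=
      Algebra.adjoin_mono (by rintro _ (rfl | rfl); exacts [hDξ, hDy]) ha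
    have := (hR a ha').1.resolve_left a0
    exact hdiv (P.ν a).toNat a ha' a0 (by omega)
  obtain ⟨r, hr', s, hs, rfl⟩ := IntermediateField.mem_adjoin_iff_div.1 hg
  have r0 : r ≠ 0 := (div_ne_zero_iff.1 hg0).1
  have s0 : s ≠ 0 := (div_ne_zero_iff.1 hg0).2
  intro h
  rw [div_eq_mul_inv, P.mul r0 (inv_ne_zero s0), nu_inv P s0] at h
  have h2 := dvd_add (hdiv' r hr' r0) (dvd_neg.2 (hdiv' s hs s0))
  rw [h] at h2
  have := Int.le_of_dvd one_pos h2
  omega

end Pool.Agent.Lib.EN39
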