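import Pool.Agent.Lib.EN39.Defs

namespace Pool.Agent.Lib.EN39

namespace Pl

variable {F K : Type} [Field F] [Field K] [Algebra F K] (P : Pl F K)

theorem ν_one : P.ν 1 = 0 := by
  have h := P.mul (one_ne_zero (α := K)) (one_ne_zero (α := K))
  rw [mul_one] at h
  omega

theorem ν_neg (f : K) : P.ν (-f) = P.ν f := by
  by_cases hf : f = 0
  · simp [hf]
  have h1 : P.ν (-1) = 0 := by
    have := P.const (-1) (by simp)
    simpa using this
  have h := P.mul (f := -1) (g := f) (by simp) hf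
  rw [neg_one_mul] at h
  omega

theorem ν_inv {f : K} (hf : f ≠ 0) : P.ν f⁻¹ = -P.ν f := by
  have h := P.mul hf (inv_ne_zero hf)
  rw [mul_inv_cancel₀ hf, P.ν_one] at h
  omega

theorem ν_div {f g : K} (hf : f ≠ 0) (hg : g ≠ 0) : P.ν (f / g) = P.ν f - P.ν g := by
  rw [div_eq_mul_inv, P.mul hf (inv_ne_zero hg), P.ν_inv hg]
  ring

theorem ν_pow {f : K} (hf : f ≠ 0) (n : ℕ) : P.ν (f ^ n) = n * P.ν f := by
  induction n with
  | zero => simp [P.ν_one]
  | succ n ih => rw [pow_succ, P.mul (pow_ne_zero _ hf) hf, ih]; push_cast; ring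

theorem ν_zpow {f : K} (hf : f ≠ 0) (n : ℤ) : P.ν (f ^ n) = n * P.ν f := by
  obtain ⟨m, rfl | rfl⟩ := n.eq_nat_or_neg
  · rw [zpow_natCast, P.ν_pow hf]
  · rw [zpow_neg, zpow_natCast, P.ν_inv (pow_ne_zero _ hf), P.ν_pow hf]; ring

theorem ge_zero (n : ℤ) : P.Ge n 0 := Or.inl rfl

theorem ge_self (f : K) : P.Ge (P.ν f) f := Or.inr le_rfl

variable {P}

theorem Ge.mono {m n : ℤ} {f : K} (h : P.Ge n f) (hmn : m ≤ n) : P.Ge m f :=
  h.imp id fun h => hmn.trans h

theorem Ge.le {n : ℤ} {f : K} (h : P.Ge n f) (hf : f ≠ 0) : n ≤ P.ν f := h.resolve_left hf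

theorem Ge.mul {m n : ℤ} {f g : K} (hf : P.Ge m f) (hg : P.Ge n g) : P.Ge (m + n) (f * g) := by
  by_cases h1 : f = 0
  · left; simp [h1]
  by_cases h2 : g = 0
  · left; simp [h2]
  right
  rw [P.mul h1 h2]
  have := hf.le h1
  have := hg.le h2
  omega

theorem Ge.add {n : ℤ} {f g : K} (hf : P.Ge n f) (hg : P.Ge n g) : P.Ge n (f + g) := by
  by_cases h1 : f = 0
  · simpa [h1] using hg
  by_cases h2 : g = 0
  · simpa [h2] using hf
  by_cases h3 : f + g = 0
  · exact Or.inl h3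
  right
  have := P.add h1 h2 h3
  have := hf.le h1
  have := hg.le h2
  omega

theorem Ge.neg {n : ℤ} {f : K} (hf : P.Ge n f) : P.Ge n (-f) := by
  rcases hf with h | h
  · left; simp [h]
  · right; rwa [P.ν_neg]

theorem Ge.sub {n : ℤ} {f g : K} (hf : P.Ge n f) (hg : P.Ge n g) : P.Ge n (f - g) := by
  rw [sub_eq_add_neg]; exact hf.add hg.neg

theorem Ge.div {m : ℤ} {f g : K} (hf : P.Ge m f) (hg : g ≠ 0) : P.Ge (m - P.ν g) (f / g) := by
  rw [div_eq_mul_inv, sub_eq_add_neg, ← P.ν_inv hg]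
  exact hf.mul (P.ge_self _)

variable (P)

theorem ge_const (c : F) : P.Ge 0 (algebraMap F K c) := by
  by_cases hc : c = 0
  · left; simp [hc]
  · right; rw [P.const c hc]

theorem ge_int (k : ℤ) : P.Ge 0 (k : K) := by
  simpa using P.ge_const (k : F)

theorem ν_int [CharZero F] {k : ℤ} (hk : k ≠ 0) : (k : K) ≠ 0 ∧ P.ν (k : K) = 0 := by
  have h1 : (k : F) ≠ 0 := by exact_mod_cast hk
  have h2 := P.const (k : F) h1
  have h3 : algebraMap F K (k : F) ≠ 0 := by simpa using (map_ne_zero (algebraMap F K)).2 h1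
  simp only [map_intCast] at h2 h3
  exact ⟨h3, h2⟩

/-- Adding a term of higher order does not change the order. -/
theorem ν_add_eq {f g : K} (hf : f ≠ 0) (hg : P.Ge (P.ν f + 1) g) :
    f + g ≠ 0 ∧ P.ν (f + g) = P.ν f := by
  by_cases h2 : g = 0
  · simp [h2, hf]
  have hg' := hg.le h2
  have h3 : f + g ≠ 0 := by
    intro h
    have : g = -f := by linear_combination h
    rw [this, P.ν_neg] at hg'
    omega
  refine ⟨h3, ?_⟩
  have h4 := P.add hf h2 h3
  have h5 := P.add h3 (neg_ne_zero.2 h2) (by simpa using hf)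
  rw [P.ν_neg, add_neg_cancel_right] at h5
  omega

theorem der_zpow (d : Der K) {f : K} (hf : f ≠ 0) (k : ℤ) :
    d.f (f ^ k) = k * f ^ k * (d.f f / f) := by
  have hn : ∀ m : ℕ, d.f (f ^ m) = m * f ^ m * (d.f f / f) := by
    intro m
    cases m with
    | zero => simp [d.one]
    | succ m => rw [d.pow]; field_simp; push_cast; ring
  obtain ⟨m, rfl | rfl⟩ := k.eq_nat_or_neg
  · rw [zpow_natCast, hn]; push_cast; ring
  · rw [zpow_neg, zpow_natCast, d.inv, hn]; push_cast; field_simp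

/-- The logarithmic derivative has at most a simple pole, with residue the order. -/
theorem log {d : Der K} (hd : P.Pres d) {f : K} (hf : f ≠ 0) :
    P.Ge 0 (d.f f / f - (P.ν f : K) * (d.f P.π / P.π)) := by
  set k := P.ν f with hk
  have hp : P.π ^ k ≠ 0 := zpow_ne_zero _ P.π_ne
  have hu : f / P.π ^ k ≠ 0 := div_ne_zero hf hp
  have hν : P.ν (f / P.π ^ k) = 0 := by
    rw [P.ν_div hf hp, P.ν_zpow P.π_ne, P.ν_π]; omega
  have h1 := (hd _ (Or.inr hν.ge)).div hu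
  rw [hν, sub_zero] at h1
  have e : d.f (f / P.π ^ k) / (f / P.π ^ k) = d.f f / f - (k : K) * (d.f P.π / P.π) := by
    rw [d.div _ _ hp, der_zpow d P.π_ne]
    field_simp
  rwa [e] at h1

theorem ge_dπ {d : Der K} (hd : P.Pres d) : P.Ge (-1) (d.f P.π / P.π) := by
  have h := (hd P.π (Or.inr (by rw [P.ν_π]; omega))).div P.π_ne
  rwa [P.ν_π, zero_sub] at h

theorem ge_log {d : Der K} (hd : P.Pres d) {f : K} (hf : f ≠ 0) : P.Ge (-1) (d.f f / f) := by
  have h1 := (P.log hd hf).mono (show (-1 : ℤ) ≤ 0 by omega)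
  have h2 := (P.ge_int (P.ν f)).mul (P.ge_dπ hd)
  rw [zero_add] at h2
  simpa using h1.add h2

theorem ge_der {d : Der K} (hd : P.Pres d) (f : K) : P.Ge (P.ν f - 1) (d.f f) := by
  by_cases hf : f = 0
  · left; rw [hf, d.zero]
  have h := (P.ge_self f).mul (P.ge_log hd hf)
  rwa [mul_div_cancel₀ _ hf] at h

/-- Exact order of the derivative. -/
theorem ν_der [CharZero F] {d : Der K} (hd : P.Pres d) (hπ : d.f P.π ≠ 0)
    (hπ' : P.ν (d.f P.π) = 0) {f : K} (hf : f ≠ 0)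
    (hν : P.ν f ≠ 0) : d.f f ≠ 0 ∧ P.ν (d.f f) = P.ν f - 1 := by
  obtain ⟨k1, k2⟩ := P.ν_int hν
  have hA : (P.ν f : K) * (d.f P.π / P.π) ≠ 0 := mul_ne_zero k1 (div_ne_zero hπ P.π_ne)
  have hB : P.ν ((P.ν f : K) * (d.f P.π / P.π)) = -1 := by
    rw [P.mul k1 (div_ne_zero hπ P.π_ne), k2, P.ν_div hπ P.π_ne, hπ', P.ν_π]; rfl
  have h := P.ν_add_eq hA (by rw [hB]; exact P.log hd hf)
  rw [add_sub_cancel, hB] at h
  have h0 : d.f f ≠ 0 := fun h0 => h.1 (by rw [h0, zero_div])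
  refine ⟨h0, ?_⟩
  have := P.ν_div h0 hf
  omega

/-- A constant of `D + v d` of nonzero order makes `v` regular, with known value. -/
theorem val [CharZero F] {d D : Der K} (hd : P.Pres d) (hD : P.Pres D) (hπ : d.f P.π ≠ 0)
    (hπ' : P.ν (d.f P.π) = 0) {g v : K} (hg : g ≠ 0) (hν : P.ν g ≠ 0)
    (h : D.f g + v * d.f g = 0) : P.Ge 0 v ∧ P.Ge 1 (v * d.f P.π + D.f P.π) := by
  obtain ⟨h1, h2⟩ := P.ν_der hd hπ hπ' hg hν
  have hv : P.Ge 0 v := by
    have e : v = -(D.f g) / d.f g := by field_simp; linear_combination h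
    have h3 := (P.ge_der hD g).neg.div h1
    rw [h2, sub_self] at h3
    rwa [e]
  refine ⟨hv, ?_⟩
  obtain ⟨k1, k2⟩ := P.ν_int hν
  have a1 := P.log hd hg
  have a2 := P.log hD hg
  have a3 := ((a2.add (by simpa using hv.mul a1)).neg.mul (P.ge_self P.π)).div k1
  rw [P.ν_π, k2] at a3
  have e : -(D.f g / g - (P.ν g : K) * (D.f P.π / P.π) +
      v * (d.f g / g - (P.ν g : K) * (d.f P.π / P.π))) * P.π / (P.ν g : K) =
      v * d.f P.π + D.f P.π := by
    have hp := P.π_ne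
    have e2 : D.f g = -(v * d.f g) := by linear_combination h
    rw [e2]
    field_simp
    ring
  rw [e] at a3
  simpa using a3

end Pl

end Pool.Agent.Lib.EN39
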