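import Pool.Agent.Lib.EN39.B_RAM

/-! Rows for the two steps of the proof. -/

namespace Pool.Agent.Lib.EN39

abbrev KK : Type := RatFunc ℂ

/-- the linear function `t - c` -/
noncomputable def L (c : ℂ) : KK := RatFunc.X - RatFunc.C c

/-- places and derivations of the field of rational functions -/
structure Setup (a : ℂ) where
  fin : ℂ → Pl ℂ KK
  inf : Pl ℂ KK
  d : Der KK
  D : Der KK
  e : ℂ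
  a0 : a ≠ 0
  a1 : a ≠ 1
  e0 : e ≠ 0
  fin_π : ∀ c, (fin c).π = L c
  fin_ne : ∀ c b, b ≠ c → (fin c).ν (L b) = 0
  inf_π : inf.π = (L 0)⁻¹
  inf_L : ∀ b, inf.ν (L b) = -1
  liou : ∀ f, (∀ c, (fin c).Ge 0 f) → inf.Ge 1 f → f = 0
  fin_d : ∀ c, (fin c).Pres d
  fin_D : ∀ c, (fin c).Pres D
  inf_d : inf.Pres (d.smul (L 0 ^ 2))
  inf_D : inf.Pres D
  d_L : ∀ c, d.f (L c) = 1
  d_C : ∀ c : ℂ, d.f (algebraMap ℂ KK c) = 0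
  D_0 : D.f (L 0) = 0
  D_1 : D.f (L 1) = 0
  D_a : D.f (L a) = -algebraMap ℂ KK e
  comm : ∀ f, d.f (D.f f) = D.f (d.f f)

/-- the three square classes -/
structure Pt (a : ℂ) (ξ y : KK) : Prop where
  h0 : ∃ u, u ≠ 0 ∧ ξ = L 1 * L a * u ^ 2
  h1 : ∃ u, u ≠ 0 ∧ (ξ + 1) * (y ^ 2 - 4) = L 0 * L 1 * u ^ 2
  h2 : ∃ u, u ≠ 0 ∧ (ξ - 1) * (ξ + 1) * (y ^ 2 - 1) = L 0 * L 1 * L a * u ^ 2

/-- the table of parities -/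
structure Par {a : ℂ} (S : Setup a) (ξ y : KK) : Prop where
  n0 : ξ ≠ 0
  n1 : ξ - 1 ≠ 0
  n2 : ξ + 1 ≠ 0
  n3 : y ^ 2 - 1 ≠ 0
  n4 : y ^ 2 - 4 ≠ 0
  f0 : ∀ c, Odd ((S.fin c).ν ξ) ↔ c = 1 ∨ c = a
  f1 : ∀ c, Odd ((S.fin c).ν ((ξ + 1) * (y ^ 2 - 4))) ↔ c = 0 ∨ c = 1
  f2 : ∀ c, Odd ((S.fin c).ν ((ξ - 1) * (ξ + 1) * (y ^ 2 - 1))) ↔ c = 0 ∨ c = 1 ∨ c = a
  i0 : Even (S.inf.ν ξ)
  i1 : Even (S.inf.ν ((ξ + 1) * (y ^ 2 - 4)))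
  i2 : Odd (S.inf.ν ((ξ - 1) * (ξ + 1) * (y ^ 2 - 1)))

def St_SET : Prop := ∀ a : ℂ, Transcendental ℚ a → Nonempty (Setup a)

def St_PAR : Prop := ∀ (a : ℂ) (S : Setup a) (ξ y : KK), Pt a ξ y → Par S ξ y

def St_ONE : Prop := ∀ (a : ℂ) (S : Setup a) (ξ y : KK), Par S ξ y →
  S.d.f ξ * S.D.f y - S.D.f ξ * S.d.f y = 0

def St_LUR : Prop := ∀ (a : ℂ) (S : Setup a) (ξ y : KK), Par S ξ y →
  ∃ ψ : KK, ψ ≠ 0 ∧ S.inf.ν ψ < 0 ∧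
    IntermediateField.adjoin ℂ {ξ, y} = IntermediateField.adjoin ℂ {ψ}

def St_IMG : Prop := ∀ (a : ℂ) (S : Setup a) (ξ y ψ : KK), Par S ξ y → ψ ≠ 0 → S.inf.ν ψ < 0 →
  IntermediateField.adjoin ℂ {ξ, y} = IntermediateField.adjoin ℂ {ψ} →
  (∀ b : ℂ, ψ - algebraMap ℂ KK b ≠ 0) ∧ ∃ b1 b2 b3 : ℂ, b1 ≠ b2 ∧ b1 ≠ b3 ∧ b2 ≠ b3 ∧
    1 ≤ (S.fin 0).ν (ψ - algebraMap ℂ KK b1) ∧ 1 ≤ (S.fin 1).ν (ψ - algebraMap ℂ KK b2) ∧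
    1 ≤ (S.fin a).ν (ψ - algebraMap ℂ KK b3) ∧
    (∀ c b, b = b1 ∨ b = b2 ∨ b = b3 → 1 ≤ (S.fin c).ν (ψ - algebraMap ℂ KK b) →
      (S.fin c).ν ((ξ - 1) * (ξ + 1) * (y ^ 2 - 1)) ≠ 0 ∧
        (c ≠ 0 → c ≠ 1 → c ≠ a → (S.fin c).ν (ψ - algebraMap ℂ KK b) ≠ 1)) ∧
    ∀ c, (S.fin c).ν ψ < 0 →
      (S.fin c).ν ((ξ - 1) * (ξ + 1) * (y ^ 2 - 1)) ≠ 0 ∧ (S.fin c).ν ψ ≠ -1

def St_KAP : Prop := ∀ (a : ℂ) (S : Setup a) (ψ : KK) (b1 b2 b3 : ℂ), ψ ≠ 0 →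
  (∀ b : ℂ, ψ - algebraMap ℂ KK b ≠ 0) → S.inf.ν ψ < 0 → b1 ≠ b2 → b1 ≠ b3 → b2 ≠ b3 →
  1 ≤ (S.fin 0).ν (ψ - algebraMap ℂ KK b1) → 1 ≤ (S.fin 1).ν (ψ - algebraMap ℂ KK b2) →
  1 ≤ (S.fin a).ν (ψ - algebraMap ℂ KK b3) →
  (∀ c b, b = b1 ∨ b = b2 ∨ b = b3 → c ≠ 0 → c ≠ 1 → c ≠ a →
    (S.fin c).ν (ψ - algebraMap ℂ KK b) ≠ 1) →
  (∀ c, (S.fin c).ν ψ ≠ -1) →
  ∀ c b, b ≠ b1 → b ≠ b2 → b ≠ b3 → (S.fin c).ν (ψ - algebraMap ℂ KK b) ≤ 1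

def St_VAL : Prop := ∀ (F K : Type) [Field F] [Field K] [Algebra F K] [CharZero F]
  (P : Pl F K) (d D : Der K), P.Pres d → P.Pres D → d.f P.π = 1 ∨ d.f P.π = -1 →
  ∀ v g : K, g ≠ 0 → P.ν g ≠ 0 → D.f g + v * d.f g = 0 → P.Ge 1 (v * d.f P.π + D.f P.π)

def St_END : Prop := ∀ (a : ℂ) (S : Setup a) (ξ y : KK), Par S ξ y →
  S.d.f ξ * S.D.f y - S.D.f ξ * S.d.f y = 0 →
  (∀ c, (S.fin c).ν ((ξ - 1) * (ξ + 1) * (y ^ 2 - 1)) ≠ 0 ∨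
    ∃ g ∈ IntermediateField.adjoin ℂ {ξ, y}, g ≠ 0 ∧ (S.fin c).ν g = 1) → False

def St_CORE : Prop := ∀ a : ℂ, Transcendental ℚ a → ∀ ξ y : KK, ¬ Pt a ξ y

theorem L_ne (c : ℂ) : L c ≠ 0 := by
  have h : L c = algebraMap (Polynomial ℂ) KK (Polynomial.X - Polynomial.C c) := by
    rw [map_sub, RatFunc.algebraMap_X, RatFunc.algebraMap_C, L]
  rw [h]
  exact RatFunc.algebraMap_ne_zero (Polynomial.X_sub_C_ne_zero c)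

theorem Setup.fin_self {a : ℂ} (S : Setup a) (c : ℂ) : (S.fin c).ν (L c) = 1 := by
  rw [← S.fin_π, Pl.ν_π]

theorem bCORE (hSET : St_SET) (hPAR : St_PAR) (hONE : St_ONE) (hLUR : St_LUR) (hIMG : St_IMG)
    (hKAP : St_KAP) (hEND : St_END) : St_CORE := by
  intro a ha ξ y hpt
  obtain ⟨S⟩ := hSET a ha
  have hp := hPAR a S ξ y hpt
  obtain ⟨ψ, hψ, hinf, hadj⟩ := hLUR a S ξ y hp
  obtain ⟨hne, b1, b2, b3, h12, h13, h23, e1, e2, e3, hb, hpole⟩ := hIMG a S ξ y ψ hp hψ hinf hadj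
  have hk := hKAP a S ψ b1 b2 b3 hψ hne hinf h12 h13 h23 e1 e2 e3
    (fun c b hbb c0 c1 ca h => (hb c b hbb h.ge).2 c0 c1 ca h)
    (fun c h => (hpole c (by omega)).2 h)
  refine hEND a S ξ y hp (hONE a S ξ y hp) fun c => ?_
  rcases lt_or_ge ((S.fin c).ν ψ) 0 with h | h
  · exact Or.inl (hpole c h).1
  obtain ⟨b, hb1⟩ := (S.fin c).res ψ hψ h
  have hb2 := hb1.resolve_left (hne b)
  by_cases hbb : b = b1 ∨ b = b2 ∨ b = b3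
  · exact Or.inl (hb c b hbb hb2).1
  · refine Or.inr ⟨ψ - algebraMap ℂ KK b, ?_, hne b, le_antisymm (hk c b ?_ ?_ ?_) hb2⟩
    · rw [hadj]
      exact sub_mem (IntermediateField.mem_adjoin_simple_self ℂ ψ)
        (IntermediateField.algebraMap_mem _ b)
    · exact fun h1 => hbb (Or.inl h1)
    · exact fun h1 => hbb (Or.inr (Or.inl h1))
    · exact fun h1 => hbb (Or.inr (Or.inr h1))

end Pool.Agent.Lib.EN39
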