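import Mathlib

namespace Pool.Agent.Lib.EN39

open Polynomial

/-- A derivation of a field. -/
structure Der (K : Type) [Field K] where
  f : K → K
  add : ∀ a b, f (a + b) = f a + f b
  mul : ∀ a b, f (a * b) = a * f b + b * f a

/-- A discrete valuation of `K`, trivial on `F`, with residue field `F`. -/
structure Pl (F K : Type) [Field F] [Field K] [Algebra F K] where
  ν : K → ℤ
  mul : ∀ {f g : K}, f ≠ 0 → g ≠ 0 → ν (f * g) = ν f + ν g
  add : ∀ {f g : K}, f ≠ 0 → g ≠ 0 → f + g ≠ 0 → min (ν f) (ν g) ≤ ν (f + g)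
  const : ∀ c : F, c ≠ 0 → ν (algebraMap F K c) = 0
  π : K
  π_ne : π ≠ 0
  ν_π : ν π = 1
  res : ∀ f : K, f ≠ 0 → 0 ≤ ν f →
    ∃ b : F, f - algebraMap F K b = 0 ∨ 1 ≤ ν (f - algebraMap F K b)

/-- Order at least `n`. -/
def Pl.Ge {F K : Type} [Field F] [Field K] [Algebra F K] (P : Pl F K) (n : ℤ) (f : K) : Prop :=
  f = 0 ∨ n ≤ P.ν f

/-- The derivation preserves the valuation ring. -/
def Pl.Pres {F K : Type} [Field F] [Field K] [Algebra F K] (P : Pl F K)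
    (d : Der K) : Prop :=
  ∀ f, P.Ge 0 f → P.Ge 0 (d.f f)

noncomputable def finν {F : Type} [Field F] (c : F) (f : RatFunc F) : ℤ :=
  (rootMultiplicity c f.num : ℤ) - (rootMultiplicity c f.denom : ℤ)

noncomputable def infν {F : Type} [Field F] (f : RatFunc F) : ℤ := - f.intDegree

def St_PLF : Prop := ∀ (F : Type) [Field F] (c : F),
  ∃ P : Pl F (RatFunc F), P.ν = finν c ∧ P.π = RatFunc.X - RatFunc.C c ∧
    ∀ d : Der (RatFunc F),
      (∀ p : F[X], ∃ q : F[X], d.f (algebraMap F[X] (RatFunc F) p) = algebraMap F[X] (RatFunc F) q) →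
      P.Pres d

def St_PLI : Prop := ∀ (F : Type) [Field F],
  ∃ P : Pl F (RatFunc F), P.ν = infν ∧ P.π = (RatFunc.X : RatFunc F)⁻¹ ∧
    (∀ d : Der (RatFunc F),
      (∀ p : F[X], ∃ q : F[X], d.f (algebraMap F[X] (RatFunc F) p) = algebraMap F[X] (RatFunc F) q ∧
        q.degree ≤ p.degree) → P.Pres d) ∧
    (∀ d : Der (RatFunc F),
      (∀ p : F[X], d.f (algebraMap F[X] (RatFunc F) p) =
        algebraMap F[X] (RatFunc F) (derivative p)) →
      ∀ f, P.Ge 0 f → P.Ge 2 (d.f f))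

def St_LIOU : Prop := ∀ (F : Type) [Field F] [IsAlgClosed F] (f : RatFunc F),
  (∀ c : F, f = 0 ∨ 0 ≤ finν c f) → (f = 0 ∨ 1 ≤ infν f) → f = 0

def St_DER : Prop := ∀ (F : Type) [Field F] (D0 : Der F),
  ∃ d D : Der (RatFunc F),
    (∀ p : F[X], d.f (algebraMap F[X] (RatFunc F) p) = algebraMap F[X] (RatFunc F) (derivative p)) ∧
    (∀ p : F[X], ∃ q : F[X], D.f (algebraMap F[X] (RatFunc F) p) = algebraMap F[X] (RatFunc F) q ∧
        q.degree ≤ p.degree) ∧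
    (∀ c : F, D.f (RatFunc.C c) = RatFunc.C (D0.f c)) ∧ D.f RatFunc.X = 0 ∧ ∀ f, d.f (D.f f) = D.f (d.f f)

def St_DC : Prop := ∀ a : ℂ, Transcendental ℚ a → ∃ D0 : Der ℂ, D0.f a ≠ 0

/-- Local bound for the square of the two-form. -/
def St_LOC : Prop := ∀ (F K : Type) [Field F] [Field K] [Algebra F K] [CharZero F]
  (P : Pl F K) (d D : Der K), P.Pres d → P.Pres D → ∀ ξ y : K,
  ξ ≠ 0 → ξ - 1 ≠ 0 → ξ + 1 ≠ 0 → y ^ 2 - 1 ≠ 0 → y ^ 2 - 4 ≠ 0 →
  P.Ge (-1) ((d.f ξ * D.f y - D.f ξ * d.f y) ^ 2 /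
      (ξ * (ξ - 1) * (ξ + 1) * ((y ^ 2 - 1) * (y ^ 2 - 4)))) ∧
  (Even (P.ν (ξ * (ξ - 1) * (ξ + 1) * (y ^ 2 - 1))) →
    (Even (P.ν ξ) → Even (P.ν ((ξ + 1) * (y ^ 2 - 4)))) →
    P.Ge 0 ((d.f ξ * D.f y - D.f ξ * d.f y) ^ 2 /
      (ξ * (ξ - 1) * (ξ + 1) * ((y ^ 2 - 1) * (y ^ 2 - 4)))))

/-- Orders in `F(ψ)` factor through the point `ψ(c)`. -/
def St_COMP : Prop := ∀ (F K : Type) [Field F] [Field K] [Algebra F K] (ψ g : K),
  g ≠ 0 → g ∈ IntermediateField.adjoin F {ψ} →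
  ∃ (n : F → ℤ) (m : ℤ), ∀ P : Pl F K,
    (∀ b : F, ψ - algebraMap F K b ≠ 0 → 1 ≤ P.ν (ψ - algebraMap F K b) →
      P.ν g = P.ν (ψ - algebraMap F K b) * n b) ∧
    (ψ ≠ 0 → P.ν ψ < 0 → P.ν g = P.ν ψ * m)

/-- At a pole of `v` the field generated by constants of `D + v d` is ramified. -/
def St_RAM : Prop := ∀ (F K : Type) [Field F] [Field K] [Algebra F K] [CharZero F]
  (P : Pl F K) (d D : Der K), P.Pres d → P.Pres D → d.f P.π = 1 →
  (∀ c : F, d.f (algebraMap F K c) = 0) → (∀ f, d.f (D.f f) = D.f (d.f f)) →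
  ∀ v ξ y : K, d.f ξ ≠ 0 → D.f ξ + v * d.f ξ = 0 → D.f y + v * d.f y = 0 → ¬ P.Ge 0 v →
  ∀ g : K, g ≠ 0 → g ∈ IntermediateField.adjoin F {ξ, y} → P.ν g ≠ 1

namespace Der

variable {K : Type} [Field K] (d : Der K)

theorem zero : d.f 0 = 0 := by
  have h := d.add 0 0
  rw [add_zero] at h
  linear_combination -h

theorem one : d.f 1 = 0 := by
  have h := d.mul 1 1
  rw [mul_one] at h
  linear_combination -h

theorem neg (a : K) : d.f (-a) = -d.f a := by
  have h := d.add a (-a)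
  rw [add_neg_cancel, d.zero] at h
  linear_combination -h

theorem sub (a b : K) : d.f (a - b) = d.f a - d.f b := by
  rw [sub_eq_add_neg, d.add, d.neg, sub_eq_add_neg]

theorem nat (n : ℕ) : d.f (n : K) = 0 := by
  induction n with
  | zero => simpa using d.zero
  | succ n ih => rw [Nat.cast_succ, d.add, ih, d.one, add_zero]

theorem two : d.f 2 = 0 := by simpa using d.nat 2

theorem inv (a : K) : d.f a⁻¹ = -(d.f a) / a ^ 2 := by
  by_cases ha : a = 0
  · simp [ha, d.zero]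
  have h := d.mul a a⁻¹
  rw [mul_inv_cancel₀ ha, d.one] at h
  field_simp
  field_simp at h
  linear_combination -h

theorem div (a b : K) (hb : b ≠ 0) : d.f (a / b) = (d.f a * b - a * d.f b) / b ^ 2 := by
  rw [div_eq_mul_inv, d.mul, d.inv]
  field_simp
  ring

theorem pow (a : K) (n : ℕ) : d.f (a ^ (n + 1)) = (n + 1) * a ^ n * d.f a := by
  induction n with
  | zero => simp
  | succ n ih => rw [pow_succ, d.mul, ih]; push_cast; ring

/-- A multiple of a derivation. -/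
def smul (c : K) : Der K where
  f a := c * d.f a
  add a b := by rw [d.add]; ring
  mul a b := by rw [d.mul]; ring

end Der

end Pool.Agent.Lib.EN39
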