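import Pool.Agent.Lib.EN39.Step2
import Pool.Agent.Lib.EN39.B_PLF
import Pool.Agent.Lib.EN39.B_PLI
import Pool.Agent.Lib.EN39.B_DER

namespace Pool.Agent.Lib.EN39

theorem ctx (F : Type) [Field F] [IsAlgClosed F] (D0 : Der F) :
    ∃ X : Ctx F (RatFunc F), X.t = RatFunc.X ∧ X.D0 = D0 := by
  obtain ⟨d, D, h1, h2, h3, h4, h5⟩ := bDER F D0
  choose Pf f1 f2 f3 using bPLF F
  obtain ⟨Pi, i1, i2, i3, i4⟩ := bPLI F
  refine ⟨⟨RatFunc.X, Pf, Pi, d, D, D0, fun c => by rw [f2, RatFunc.algebraMap_eq_C], i2,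
    fun c => f3 c d fun p => ⟨_, h1 p⟩, fun c => f3 c D fun p => (h2 p).imp fun _ h => h.1,
    i3 D h2, i4 d h1, ?_, fun c => ?_, h4, fun c => ?_, h5, fun f a b => ?_, fun ξ y => ?_⟩,
    rfl, rfl⟩
  · rw [← RatFunc.algebraMap_X, h1, Polynomial.derivative_X, map_one]
  · rw [RatFunc.algebraMap_eq_C, ← RatFunc.algebraMap_C, h1, Polynomial.derivative_C, map_zero]
  · rw [RatFunc.algebraMap_eq_C, h3]
  · refine bLIOU F f (fun c => ?_) ?_
    · rw [← f1]; exact a c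
    · rw [← i1]; exact b
  · exact ⟨_, RatFunc.Luroth.eq_adjoin_generator⟩

theorem nondense (a : ℂ) (ha : Transcendental ℚ a) (t s x y U V : RatFunc ℂ) (ht : t = RatFunc.X)
    (hs : s = RatFunc.C a)
    (h1 : U ^ 2 = t * (t - 1) * (t - s) * ((t - 1) * x ^ 2 + (t - s)) * (y ^ 2 - 4))
    (h2 : V ^ 2 = t * (t - 1) * (t - s) * ((t - 1) ^ 2 * x ^ 4 - (t - s) ^ 2) * (y ^ 2 - 1)) :
    x * U * V = 0 := by
  by_contra h
  obtain ⟨hxU, hV⟩ := mul_ne_zero_iff.1 h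
  obtain ⟨hx, hU⟩ := mul_ne_zero_iff.1 hxU
  obtain ⟨D0, hD⟩ := bDC a ha
  obtain ⟨X, e1, e2⟩ := ctx ℂ D0
  have t0 : X.T 0 = t := by rw [X.T_zero, e1, ht]
  have t1 : X.T 1 = t - 1 := by rw [Ctx.T, e1, ht, map_one]
  have ta : X.T a = t - s := by rw [Ctx.T, e1, ht, hs, RatFunc.algebraMap_eq_C]
  have n0 : t ≠ 0 := t0 ▸ X.T_ne 0
  have n1 : t - 1 ≠ 0 := t1 ▸ X.T_ne 1
  have na : t - s ≠ 0 := ta ▸ X.T_ne a
  refine X.step2 (a := a) (by rw [e2]; exact hD) (ξ := (t - 1) * x ^ 2 / (t - s)) (y := y)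
    (w0 := x / (t - s)) (w1 := U / (t * (t - 1) * (t - s)))
    (w2 := V / (t * (t - 1) * (t - s) ^ 2)) (div_ne_zero hx na)
    (div_ne_zero hU (mul_ne_zero (mul_ne_zero n0 n1) na))
    (div_ne_zero hV (mul_ne_zero (mul_ne_zero n0 n1) (pow_ne_zero _ na))) ?_ ?_ ?_
  · rw [t1, ta]; field_simp
  · rw [t0, t1, div_pow, h1]; field_simp
  · rw [t0, t1, ta, div_pow, h2]; field_simp; ring

theorem lin_ne (α β : ℂ) (h : α ≠ 0 ∨ β ≠ 0) :
    (RatFunc.C α * RatFunc.X + RatFunc.C β : RatFunc ℂ) ≠ 0 := by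
  rw [← RatFunc.algebraMap_X, ← RatFunc.algebraMap_C, ← RatFunc.algebraMap_C, ← map_mul, ← map_add]
  refine RatFunc.algebraMap_ne_zero fun h0 => ?_
  have h1 := congrArg (Polynomial.coeff · 1) h0
  have h2 := congrArg (Polynomial.coeff · 0) h0
  simp at h1 h2
  tauto

theorem point (a : ℂ) (ha : Transcendental ℚ a) (t s : RatFunc ℂ) (ht : t = RatFunc.X)
    (hs : s = RatFunc.C a) :
    t ≠ 0 ∧ t - 1 ≠ 0 ∧ t - s ≠ 0 ∧ (t - 1) + (t - s) ≠ 0 ∧ (t - 1) - (t - s) ≠ 0 ∧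
    ∃ x U : RatFunc ℂ, U ≠ 0 ∧ (t - 1) ^ 2 * x ^ 4 - (t - s) ^ 2 ≠ 0 ∧
      U ^ 2 = t * (t - 1) * (t - s) * ((t - 1) * x ^ 2 + (t - s)) * (1 ^ 2 - 4) := by
  have a0 : a ≠ 0 := fun h => ha (h ▸ isAlgebraic_zero)
  have a1 : a ≠ 1 := fun h => ha (h ▸ isAlgebraic_one)
  obtain ⟨c, hc⟩ := IsAlgClosed.exists_pow_nat_eq (-a⁻¹) (n := 2) two_pos
  obtain ⟨u, hu⟩ := IsAlgClosed.exists_pow_nat_eq (-3 * (c ^ 2 + 1)) (n := 2) two_pos
  have c1 : c ^ 2 + 1 ≠ 0 := by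
    rw [hc]
    intro h
    apply a1
    field_simp at h
    linear_combination h
  have u0 : u ≠ 0 := by
    rintro rfl
    apply c1
    linear_combination (1 / 3 : ℂ) * hu
  have hca : c ^ 2 * a = -1 := by rw [hc]; field_simp
  have n0 : t ≠ 0 := ht ▸ RatFunc.X_ne_zero
  have n1 : t - 1 ≠ 0 := by
    have := lin_ne 1 (-1) (Or.inl one_ne_zero)
    rw [ht]; simpa [sub_eq_add_neg] using this
  have na : t - s ≠ 0 := by
    have := lin_ne 1 (-a) (Or.inl one_ne_zero)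
    rw [ht, hs]; simpa [sub_eq_add_neg] using this
  obtain ⟨k, hk⟩ : ∃ k : RatFunc ℂ, k = RatFunc.C c := ⟨_, rfl⟩
  obtain ⟨w, hw⟩ : ∃ w : RatFunc ℂ, w = RatFunc.C u := ⟨_, rfl⟩
  have q1 : k ^ 2 * s = -1 := by rw [hk, hs, ← map_pow, ← map_mul, hca, map_neg, map_one]
  have q2 : w ^ 2 = -3 * (k ^ 2 + 1) := by
    rw [hk, hw, ← map_pow, hu]
    simp only [map_mul, map_neg, map_add, map_pow, map_one, map_ofNat]
  have w0 : w ≠ 0 := by rw [hw]; exact (map_ne_zero _).2 u0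
  have k1 : k ^ 2 + 1 ≠ 0 := by
    intro h
    rw [h, mul_zero] at q2
    exact w0 (pow_eq_zero_iff two_ne_zero |>.1 q2)
  have k2 : (k ^ 2 - 1) * t + 2 ≠ 0 := by
    have := lin_ne (c ^ 2 - 1) 2 (Or.inr two_ne_zero)
    rw [ht, hk]
    simpa only [map_sub, map_pow, map_one, map_ofNat] using this
  refine ⟨n0, n1, na, ?_, ?_, k * (t - s) / (t - 1), w * t * (t - s),
    mul_ne_zero (mul_ne_zero w0 n0) na, ?_, ?_⟩
  · have := lin_ne 2 (-1 - a) (Or.inl two_ne_zero)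
    simp only [map_sub, map_neg, map_one, map_ofNat] at this
    rw [ht, hs]
    intro h
    exact this (by linear_combination h)
  · have := lin_ne 0 (a - 1) (Or.inr (sub_ne_zero.2 a1))
    simp only [map_sub, map_zero, map_one] at this
    rw [ht, hs]
    intro h
    exact this (by linear_combination h)
  · have e : (t - 1) ^ 2 * (k * (t - s) / (t - 1)) ^ 4 - (t - s) ^ 2 =
        (t - s) ^ 2 * ((k ^ 2 + 1) * t) * ((k ^ 2 - 1) * t + 2) / (t - 1) ^ 2 := by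
      field_simp
      linear_combination (k ^ 2 * s - 2 * k ^ 2 * t - 1) * q1
    rw [e]
    exact div_ne_zero (mul_ne_zero (mul_ne_zero (pow_ne_zero _ na) (mul_ne_zero k1 n0)) k2)
      (pow_ne_zero _ n1)
  · rw [mul_pow, mul_pow, q2]
    field_simp
    linear_combination (-3) * q1

end Pool.Agent.Lib.EN39
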