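import Pool.Agent.Lib.EN39.B_LOC
import Pool.Agent.Lib.EN39.B_RAM
import Pool.Agent.Lib.EN39.B_COMP

namespace Pool.Agent.Lib.EN39

/-- The data of the rational function field used in the proof. -/
structure Ctx (F K : Type) [Field F] [Field K] [Algebra F K] where
  t : K
  Pf : F → Pl F K
  Pi : Pl F K
  d : Der K
  D : Der K
  D0 : Der F
  hπ : ∀ c, (Pf c).π = t - algebraMap F K c
  hπi : Pi.π = t⁻¹
  hd : ∀ c, (Pf c).Pres d
  hD : ∀ c, (Pf c).Pres D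
  hDi : Pi.Pres D
  hdi : ∀ f, Pi.Ge 0 f → Pi.Ge 2 (d.f f)
  dt : d.f t = 1
  dc : ∀ c, d.f (algebraMap F K c) = 0
  Dt : D.f t = 0
  Dc : ∀ c, D.f (algebraMap F K c) = algebraMap F K (D0.f c)
  comm : ∀ f, d.f (D.f f) = D.f (d.f f)
  liou : ∀ f, (∀ c, (Pf c).Ge 0 f) → Pi.Ge 1 f → f = 0
  lur : ∀ ξ y : K, ∃ ψ : K, IntermediateField.adjoin F {ξ, y} = IntermediateField.adjoin F {ψ}

theorem Pl.ν_other {F K : Type} [Field F] [Field K] [Algebra F K] (P : Pl F K) {ψ : K} {b b' : F}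
    (h : P.Ge 1 (ψ - algebraMap F K b)) (hb : b ≠ b') : P.ν (ψ - algebraMap F K b') = 0 := by
  have c0 : b - b' ≠ 0 := sub_ne_zero.2 hb
  have c1 := P.const _ c0
  have c2 := P.ν_add_eq ((map_ne_zero (algebraMap F K)).2 c0) (g := ψ - algebraMap F K b)
    (by rw [c1]; simpa using h)
  have e : algebraMap F K (b - b') + (ψ - algebraMap F K b) = ψ - algebraMap F K b' := by
    rw [map_sub]; ring
  rw [e, c1] at c2
  exact c2.2

theorem Pl.ν_pole {F K : Type} [Field F] [Field K] [Algebra F K] (P : Pl F K) {ψ : K}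
    (h0 : ψ ≠ 0) (h : P.ν ψ < 0) (b : F) : P.ν (ψ - algebraMap F K b) = P.ν ψ := by
  have c2 := P.ν_add_eq h0 ((P.ge_const b).neg.mono (by omega))
  rw [← sub_eq_add_neg] at c2
  exact c2.2

namespace Ctx

variable {F K : Type} [Field F] [Field K] [Algebra F K] (X : Ctx F K)

/-- The uniformiser at `c`. -/
def T (c : F) : K := X.t - algebraMap F K c

theorem T_ne (c : F) : X.T c ≠ 0 := by
  have := (X.Pf c).π_ne
  rwa [X.hπ] at this

theorem T_zero : X.T 0 = X.t := by simp [T]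

theorem t_ne : X.t ≠ 0 := by rw [← X.T_zero]; exact X.T_ne 0

theorem ν_s (c : F) : (X.Pf c).ν (X.T c) = 1 := by
  have := (X.Pf c).ν_π
  rwa [X.hπ] at this

theorem ν_n {c c' : F} (h : c ≠ c') : (X.Pf c).ν (X.T c') = 0 :=
  (X.Pf c).ν_other (Or.inr (X.ν_s c).ge) h

theorem ν_ge (c c' : F) : 0 ≤ (X.Pf c).ν (X.T c') := by
  by_cases h : c = c'
  · subst h; rw [X.ν_s]; omega
  · rw [X.ν_n h]

theorem ν_it : X.Pi.ν X.t = -1 := by
  have := X.Pi.ν_π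
  rw [X.hπi, X.Pi.ν_inv X.t_ne] at this
  omega

theorem ν_i (c : F) : X.Pi.ν (X.T c) = -1 := by
  have := X.Pi.ν_pole X.t_ne (by rw [X.ν_it]; omega) c
  rwa [X.ν_it] at this

theorem dπ (c : F) : X.d.f (X.Pf c).π = 1 := by rw [X.hπ, X.d.sub, X.dt, X.dc, sub_zero]

theorem ν_t2 : X.Pi.ν (X.t ^ 2) = -2 := by rw [X.Pi.ν_pow X.t_ne, X.ν_it]; rfl

theorem hdi' : X.Pi.Pres (X.d.smul (X.t ^ 2)) := by
  intro f hf
  have h := (X.Pi.ge_self (X.t ^ 2)).mul (X.hdi f hf)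
  rw [X.ν_t2] at h
  exact h

theorem dπi : (X.d.smul (X.t ^ 2)).f X.Pi.π = -1 := by
  have := X.t_ne
  show X.t ^ 2 * X.d.f X.Pi.π = -1
  rw [X.hπi, X.d.inv, X.dt]
  field_simp

theorem step1 [CharZero F] {a : F} (a1 : a ≠ 1) {ξ y w0 w1 w2 : K} (z0 : w0 ≠ 0) (z1 : w1 ≠ 0)
    (z2 : w2 ≠ 0) (e0 : ξ = X.T 1 * X.T a * w0 ^ 2)
    (e1 : (ξ + 1) * (y ^ 2 - 4) = X.T 0 * X.T 1 * w1 ^ 2)
    (e2 : (ξ - 1) * (ξ + 1) * (y ^ 2 - 1) = X.T 0 * X.T 1 * X.T a * w2 ^ 2) :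
    X.d.f ξ * X.D.f y - X.D.f ξ * X.d.f y = 0 := by
  have T0 := X.T_ne 0
  have T1 := X.T_ne 1
  have Ta := X.T_ne a
  have n0 : ξ ≠ 0 := by rw [e0]; exact mul_ne_zero (mul_ne_zero T1 Ta) (pow_ne_zero _ z0)
  have n1 : (ξ + 1) * (y ^ 2 - 4) ≠ 0 := by
    rw [e1]; exact mul_ne_zero (mul_ne_zero T0 T1) (pow_ne_zero _ z1)
  have n2 : (ξ - 1) * (ξ + 1) * (y ^ 2 - 1) ≠ 0 := by
    rw [e2]; exact mul_ne_zero (mul_ne_zero (mul_ne_zero T0 T1) Ta) (pow_ne_zero _ z2)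
  obtain ⟨m2, m4⟩ := mul_ne_zero_iff.1 n1
  obtain ⟨m12, m3⟩ := mul_ne_zero_iff.1 n2
  have m1 := (mul_ne_zero_iff.1 m12).1
  set J := X.d.f ξ * X.D.f y - X.D.f ξ * X.d.f y with hJ
  set Q := ξ * (ξ - 1) * (ξ + 1) * ((y ^ 2 - 1) * (y ^ 2 - 4)) with hQ
  have Q0 : Q ≠ 0 := mul_ne_zero (mul_ne_zero (mul_ne_zero n0 m1) m2) (mul_ne_zero m3 m4)
  have key : X.T 0 * (J ^ 2 / Q) = 0 := by
    refine X.liou _ (fun c => ?_) ?_
    · have L := bLOC F K (X.Pf c) X.d X.D (X.hd c) (X.hD c) ξ y n0 m1 m2 m3 m4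
      by_cases hc : c = 0
      · have h := ((X.Pf c).ge_self (X.T 0)).mul L.1
        subst hc
        rw [X.ν_s] at h
        exact h
      have t0 := X.ν_n hc
      have v0 : (X.Pf c).ν ξ = (X.Pf c).ν (X.T 1) + (X.Pf c).ν (X.T a) + 2 * (X.Pf c).ν w0 := by
        rw [e0, Pl.mul _ (mul_ne_zero T1 Ta) (pow_ne_zero _ z0), Pl.mul _ T1 Ta, Pl.ν_pow _ z0]
        rfl
      have h := ((X.Pf c).ge_self (X.T 0)).mul (L.2 ?_ ?_)
      · rw [t0] at h
        exact h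
      · have e : ξ * (ξ - 1) * (ξ + 1) * (y ^ 2 - 1) = ξ * ((ξ - 1) * (ξ + 1) * (y ^ 2 - 1)) := by
          ring
        rw [e, Pl.mul _ n0 n2, e2, v0, Pl.mul _ (mul_ne_zero (mul_ne_zero T0 T1) Ta)
          (pow_ne_zero _ z2), Pl.mul _ (mul_ne_zero T0 T1) Ta, Pl.mul _ T0 T1, Pl.ν_pow _ z2, t0,
          Int.even_iff]
        push_cast
        omega
      · rw [e1, v0, Pl.mul _ (mul_ne_zero T0 T1) (pow_ne_zero _ z1), Pl.mul _ T0 T1,
          Pl.ν_pow _ z1, t0, Int.even_iff, Int.even_iff]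
        push_cast
        by_cases h1 : c = 1
        · subst h1
          rw [X.ν_s, X.ν_n a1.symm]
          omega
        · rw [X.ν_n h1]
          omega
    · have L := (bLOC F K X.Pi _ X.D X.hdi' X.hDi ξ y n0 m1 m2 m3 m4).1
      have t3 : X.t ^ 3 ≠ 0 := pow_ne_zero _ X.t_ne
      have h := L.div t3
      rw [X.Pi.ν_pow X.t_ne, X.ν_it] at h
      have e : ((X.d.smul (X.t ^ 2)).f ξ * X.D.f y - X.D.f ξ * (X.d.smul (X.t ^ 2)).f y) ^ 2 / Q /
          X.t ^ 3 = X.T 0 * (J ^ 2 / Q) := by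
        have := X.t_ne
        rw [X.T_zero, hJ]
        simp only [Der.smul]
        field_simp
      rw [e] at h
      exact h.mono (by norm_num)
  have h := (mul_eq_zero.1 key).resolve_left T0
  exact pow_eq_zero_iff (two_ne_zero) |>.1 ((div_eq_zero_iff.1 h).resolve_right Q0)

theorem gen {ξ y : K} (hξ : X.d.f ξ ≠ 0) :
    ∃ ψ : K, IntermediateField.adjoin F {ξ, y} = IntermediateField.adjoin F {ψ} ∧
      (∀ b : F, ψ - algebraMap F K b ≠ 0) ∧ X.Pi.ν ψ < 0 := by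
  have nc : ∀ ψ : K, IntermediateField.adjoin F {ξ, y} = IntermediateField.adjoin F {ψ} →
      ∀ b : F, ψ - algebraMap F K b ≠ 0 := by
    intro ψ h b hb
    have h1 : ξ ∈ IntermediateField.adjoin F ({ξ, y} : Set K) :=
      IntermediateField.subset_adjoin _ _ (by simp)
    have h2 : IntermediateField.adjoin F {ψ} ≤ ⊥ := by
      rw [IntermediateField.adjoin_simple_le_iff, sub_eq_zero.1 hb]
      exact IntermediateField.algebraMap_mem _ b
    rw [h] at h1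
    obtain ⟨c, hc⟩ := IntermediateField.mem_bot.1 (h2 h1)
    exact hξ (by rw [← hc, X.dc])
  obtain ⟨ψ, hψ⟩ := X.lur ξ y
  by_cases h : X.Pi.ν ψ < 0
  · exact ⟨ψ, hψ, nc ψ hψ, h⟩
  have h0 : ψ ≠ 0 := by simpa using nc ψ hψ 0
  obtain ⟨b, hb⟩ := X.Pi.res ψ h0 (by omega)
  have hb0 := nc ψ hψ b
  have hb1 := hb.resolve_left hb0
  have e : IntermediateField.adjoin F {ψ} =
      IntermediateField.adjoin F {(ψ - algebraMap F K b)⁻¹} := by
    apply le_antisymm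
    · rw [IntermediateField.adjoin_simple_le_iff]
      have h1 := add_mem (inv_mem
        (IntermediateField.mem_adjoin_simple_self F (ψ - algebraMap F K b)⁻¹))
        (IntermediateField.algebraMap_mem _ b)
      simpa using h1
    · rw [IntermediateField.adjoin_simple_le_iff]
      exact inv_mem (sub_mem (IntermediateField.mem_adjoin_simple_self F ψ)
        (IntermediateField.algebraMap_mem _ b))
  refine ⟨_, hψ.trans e, nc _ (hψ.trans e), ?_⟩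
  rw [X.Pi.ν_inv hb0]
  omega

end Ctx

end Pool.Agent.Lib.EN39
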