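import Pool.Agent.Lib.EN39.Step

namespace Pool.Agent.Lib.EN39

theorem par_odd {e n s : ℤ} (h : s = e * n) (hs : s % 2 = 1) : e % 2 = 1 ∧ n % 2 = 1 := by
  have h1 : Odd (e * n) := by rw [← h, Int.odd_iff]; exact hs
  rw [Int.odd_mul, Int.odd_iff, Int.odd_iff] at h1
  exact h1

theorem par_eq {e n s : ℤ} (h : s = e * n) (he : e % 2 = 1) : s % 2 = n % 2 := by
  rw [h, Int.mul_emod, he, one_mul, Int.emod_emod_of_dvd _ dvd_rfl]

theorem par_eq' {e n s : ℤ} (h : s = e * n) (hn : n % 2 = 1) : s % 2 = e % 2 :=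
  par_eq (h.trans (mul_comm _ _)) hn

namespace Ctx

variable {F K : Type} [Field F] [Field K] [Algebra F K] (X : Ctx F K)

theorem step2 [CharZero F] {a : F} (ha : X.D0.f a ≠ 0) {ξ y w0 w1 w2 : K} (z0 : w0 ≠ 0)
    (z1 : w1 ≠ 0) (z2 : w2 ≠ 0) (e0 : ξ = X.T 1 * X.T a * w0 ^ 2)
    (e1 : (ξ + 1) * (y ^ 2 - 4) = X.T 0 * X.T 1 * w1 ^ 2)
    (e2 : (ξ - 1) * (ξ + 1) * (y ^ 2 - 1) = X.T 0 * X.T 1 * X.T a * w2 ^ 2) : False := by
  have a0 : a ≠ 0 := fun h => ha (by rw [h, X.D0.zero])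
  have a1 : a ≠ 1 := fun h => ha (by rw [h, X.D0.one])
  have hJ := X.step1 a1 z0 z1 z2 e0 e1 e2
  have T0 := X.T_ne 0
  have T1 := X.T_ne 1
  have Ta := X.T_ne a
  set g1 := (ξ + 1) * (y ^ 2 - 4) with hg1
  set g2 := (ξ - 1) * (ξ + 1) * (y ^ 2 - 1) with hg2
  have n0 : ξ ≠ 0 := by rw [e0]; exact mul_ne_zero (mul_ne_zero T1 Ta) (pow_ne_zero _ z0)
  have n1 : g1 ≠ 0 := by rw [e1]; exact mul_ne_zero (mul_ne_zero T0 T1) (pow_ne_zero _ z1)
  have n2 : g2 ≠ 0 := by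
    rw [e2]; exact mul_ne_zero (mul_ne_zero (mul_ne_zero T0 T1) Ta) (pow_ne_zero _ z2)
  have v0 : ∀ P : Pl F K, P.ν ξ = P.ν (X.T 1) + P.ν (X.T a) + 2 * P.ν w0 := fun P => by
    rw [e0, P.mul (mul_ne_zero T1 Ta) (pow_ne_zero _ z0), P.mul T1 Ta, P.ν_pow z0]; rfl
  have v1 : ∀ P : Pl F K, P.ν g1 = P.ν (X.T 0) + P.ν (X.T 1) + 2 * P.ν w1 := fun P => by
    rw [e1, P.mul (mul_ne_zero T0 T1) (pow_ne_zero _ z1), P.mul T0 T1, P.ν_pow z1]; rfl
  have v2 : ∀ P : Pl F K, P.ν g2 = P.ν (X.T 0) + P.ν (X.T 1) + P.ν (X.T a) + 2 * P.ν w2 :=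
    fun P => by
    rw [e2, P.mul (mul_ne_zero (mul_ne_zero T0 T1) Ta) (pow_ne_zero _ z2),
      P.mul (mul_ne_zero T0 T1) Ta, P.mul T0 T1, P.ν_pow z2]; rfl
  have s00 := X.ν_s 0
  have s01 := X.ν_n (zero_ne_one (α := F))
  have s0a := X.ν_n a0.symm
  have s10 := X.ν_n (one_ne_zero (α := F))
  have s11 := X.ν_s 1
  have s1a := X.ν_n a1.symm
  have sa0 := X.ν_n a0
  have sa1 := X.ν_n a1
  have saa := X.ν_s a
  have si0 := X.ν_i 0
  have si1 := X.ν_i 1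
  have sia := X.ν_i a
  have p0 : ∀ c, X.d.f (X.Pf c).π ≠ 0 := fun c => by rw [X.dπ]; exact one_ne_zero
  have p1 : ∀ c, (X.Pf c).ν (X.d.f (X.Pf c).π) = 0 := fun c => by rw [X.dπ, Pl.ν_one]
  have dξ : X.d.f ξ ≠ 0 :=
    ((X.Pf 1).ν_der (X.hd 1) (p0 1) (p1 1) n0 (by have := v0 (X.Pf 1); omega)).1
  obtain ⟨v, h1⟩ : ∃ v : K, X.D.f ξ + v * X.d.f ξ = 0 :=
    ⟨-(X.D.f ξ) / X.d.f ξ, by field_simp; ring⟩
  have h2 : X.D.f y + v * X.d.f y = 0 := by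
    apply mul_left_cancel₀ dξ
    linear_combination hJ + X.d.f y * h1
  have h3 : X.D.f g2 + v * X.d.f g2 = 0 := by
    simp only [hg2, sq, Der.mul, Der.sub, Der.add, Der.one]
    linear_combination (2 * ξ * (y * y - 1)) * h1 + (2 * y * ((ξ - 1) * (ξ + 1))) * h2
  obtain ⟨ψ, hψ, nc, hi⟩ := X.gen (y := y) dξ
  have ψ0 : ψ ≠ 0 := by simpa using nc 0
  have mξ : ξ ∈ IntermediateField.adjoin F {ψ} :=
    hψ ▸ IntermediateField.subset_adjoin _ _ (by simp)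
  have my : y ∈ IntermediateField.adjoin F {ψ} :=
    hψ ▸ IntermediateField.subset_adjoin _ _ (by simp)
  have m4 : (4 : K) ∈ IntermediateField.adjoin F {ψ} := ofNat_mem _ 4
  obtain ⟨N0, M0, c0⟩ := bCOMP F K ψ ξ n0 mξ
  obtain ⟨N1, M1, c1⟩ := bCOMP F K ψ g1 n1
    (mul_mem (add_mem mξ (one_mem _)) (sub_mem (pow_mem my 2) m4))
  obtain ⟨N2, M2, c2⟩ := bCOMP F K ψ g2 n2
    (mul_mem (mul_mem (sub_mem mξ (one_mem _)) (add_mem mξ (one_mem _)))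
      (sub_mem (pow_mem my 2) (one_mem _)))
  have i2 := par_odd ((c2 X.Pi).2 ψ0 hi) (by have := v2 X.Pi; omega)
  have i0 : M0 % 2 = 0 := by
    have := par_eq ((c0 X.Pi).2 ψ0 hi) i2.1
    have := v0 X.Pi
    omega
  have i1 : M1 % 2 = 0 := by
    have := par_eq ((c1 X.Pi).2 ψ0 hi) i2.1
    have := v1 X.Pi
    omega
  have pt : ∀ P : Pl F K, P.ν g2 % 2 = 1 → (P.ν ξ % 2 = 1 ∨ P.ν g1 % 2 = 1) →
      ∃ b : F, 1 ≤ P.ν (ψ - algebraMap F K b) ∧ N2 b % 2 = 1 ∧ N0 b % 2 = P.ν ξ % 2 ∧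
        N1 b % 2 = P.ν g1 % 2 := by
    intro P q2 q
    by_cases h : P.ν ψ < 0
    · have r := par_odd ((c2 P).2 ψ0 h) q2
      have := par_eq ((c0 P).2 ψ0 h) r.1
      have := par_eq ((c1 P).2 ψ0 h) r.1
      omega
    obtain ⟨b, hb⟩ := P.res ψ ψ0 (by omega)
    have hb1 := hb.resolve_left (nc b)
    have r := par_odd ((c2 P).1 b (nc b) hb1) q2
    exact ⟨b, hb1, r.2, (par_eq ((c0 P).1 b (nc b) hb1) r.1).symm,
      (par_eq ((c1 P).1 b (nc b) hb1) r.1).symm⟩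
  obtain ⟨b0, hb0, o0, x0, y0⟩ := pt (X.Pf 0) (by have := v2 (X.Pf 0); omega)
    (by have := v1 (X.Pf 0); omega)
  obtain ⟨b1, -, o1, x1, y1⟩ := pt (X.Pf 1) (by have := v2 (X.Pf 1); omega)
    (by have := v1 (X.Pf 1); omega)
  obtain ⟨ba, -, oa, xa, ya⟩ := pt (X.Pf a) (by have := v2 (X.Pf a); omega)
    (by have := v0 (X.Pf a); omega)
  have d01 : b0 ≠ b1 := by
    rintro rfl
    have := v0 (X.Pf 0)
    have := v0 (X.Pf 1)
    omega
  have d0a : b0 ≠ ba := by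
    rintro rfl
    have := v0 (X.Pf 0)
    have := v0 (X.Pf a)
    omega
  have d1a : b1 ≠ ba := by
    rintro rfl
    have := v1 (X.Pf 1)
    have := v1 (X.Pf a)
    omega
  have dsub : ∀ b : F, X.d.f (ψ - algebraMap F K b) = X.d.f ψ := fun b => by
    rw [X.d.sub, X.dc, sub_zero]
  have dψ : X.d.f ψ ≠ 0 := by
    rw [← dsub b0]
    exact ((X.Pf 0).ν_der (X.hd 0) (p0 0) (p1 0) (nc b0) (by omega)).1
  have TT := mul_ne_zero (mul_ne_zero T0 T1) Ta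
  have BB := mul_ne_zero (mul_ne_zero (nc b0) (nc b1)) (nc ba)
  obtain ⟨κ, hκ⟩ : ∃ κ : K, κ = X.d.f ψ ^ 2 * (X.T 0 * X.T 1 * X.T a) /
      ((ψ - algebraMap F K b0) * (ψ - algebraMap F K b1) * (ψ - algebraMap F K ba)) := ⟨_, rfl⟩
  have κ0 : κ ≠ 0 := by rw [hκ]; exact div_ne_zero (mul_ne_zero (pow_ne_zero _ dψ) TT) BB
  have vκ : ∀ P : Pl F K, P.ν κ = 2 * P.ν (X.d.f ψ) + (P.ν (X.T 0) + P.ν (X.T 1) + P.ν (X.T a)) -
      (P.ν (ψ - algebraMap F K b0) + P.ν (ψ - algebraMap F K b1) +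
        P.ν (ψ - algebraMap F K ba)) := fun P => by
    rw [hκ, P.ν_div (mul_ne_zero (pow_ne_zero _ dψ) TT) BB, P.mul (pow_ne_zero _ dψ) TT,
      P.ν_pow dψ, P.mul (mul_ne_zero T0 T1) Ta, P.mul T0 T1,
      P.mul (mul_ne_zero (nc b0) (nc b1)) (nc ba), P.mul (nc b0) (nc b1)]
    rfl
  have cases : ∀ c, 0 ≤ (X.Pf c).ν κ ∧ ((X.Pf c).ν g2 ≠ 0 ∨
      ∃ b : F, (X.Pf c).ν κ = 0 → (X.Pf c).ν (ψ - algebraMap F K b) = 1) := by
    intro c
    have k1 := vκ (X.Pf c)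
    have k2 := v2 (X.Pf c)
    have t0 := X.ν_ge c 0
    have t1 := X.ν_ge c 1
    have ta := X.ν_ge c a
    by_cases h : (X.Pf c).ν ψ < 0
    · have u0 := (X.Pf c).ν_pole ψ0 h b0
      have u1 := (X.Pf c).ν_pole ψ0 h b1
      have ua := (X.Pf c).ν_pole ψ0 h ba
      have u := ((X.Pf c).ν_der (X.hd c) (p0 c) (p1 c) ψ0 (by omega)).2
      have r := (c2 (X.Pf c)).2 ψ0 h
      have r' := par_eq' r i2.2
      refine ⟨by omega, Or.inl ?_⟩
      rw [r]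
      exact mul_ne_zero (by omega) (by omega)
    obtain ⟨b, hb⟩ := (X.Pf c).res ψ ψ0 (by omega)
    have hb1 := hb.resolve_left (nc b)
    have u := ((X.Pf c).ν_der (X.hd c) (p0 c) (p1 c) (nc b) (by omega)).2
    rw [dsub] at u
    have r := (c2 (X.Pf c)).1 b (nc b) hb1
    have ot : ∀ b', b ≠ b' → (X.Pf c).ν (ψ - algebraMap F K b') = 0 := fun b' hb' =>
      (X.Pf c).ν_other hb hb'
    by_cases q0 : b = b0
    · subst q0
      have := ot _ d01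
      have := ot _ d0a
      have r' := par_eq' r o0
      refine ⟨by omega, Or.inl ?_⟩
      rw [r]
      exact mul_ne_zero (by omega) (by omega)
    by_cases q1 : b = b1
    · subst q1
      have := ot _ d01.symm
      have := ot _ d1a
      have r' := par_eq' r o1
      refine ⟨by omega, Or.inl ?_⟩
      rw [r]
      exact mul_ne_zero (by omega) (by omega)
    by_cases qa : b = ba
    · subst qa
      have := ot _ d0a.symm
      have := ot _ d1a.symm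
      have r' := par_eq' r oa
      refine ⟨by omega, Or.inl ?_⟩
      rw [r]
      exact mul_ne_zero (by omega) (by omega)
    have := ot _ q0
    have := ot _ q1
    have := ot _ qa
    exact ⟨by omega, Or.inr ⟨b, fun _ => by omega⟩⟩
  have κi : 0 ≤ X.Pi.ν κ := by
    have k1 := vκ X.Pi
    have u0 := X.Pi.ν_pole ψ0 hi b0
    have u1 := X.Pi.ν_pole ψ0 hi b1
    have ua := X.Pi.ν_pole ψ0 hi ba
    have t2 : X.t ^ 2 ≠ 0 := pow_ne_zero _ X.t_ne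
    have u := (X.Pi.ge_der X.hdi' ψ).le (mul_ne_zero t2 dψ)
    have u' : X.Pi.ν ((X.d.smul (X.t ^ 2)).f ψ) = -2 + X.Pi.ν (X.d.f ψ) := by
      rw [← X.ν_t2]; exact X.Pi.mul t2 dψ
    omega
  have κc : ∀ c, (X.Pf c).ν κ = 0 := by
    obtain ⟨k, hk⟩ := X.Pi.res κ κ0 κi
    have e := X.liou (κ - algebraMap F K k)
      (fun c => Pl.Ge.sub (Or.inr (cases c).1) ((X.Pf c).ge_const k)) hk
    rw [sub_eq_zero] at e
    intro c
    rw [e]
    exact (X.Pf c).const k fun h => κ0 (by rw [e, h, map_zero])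
  have vreg : ∀ c, (X.Pf c).Ge 0 v := by
    intro c
    rcases (cases c).2 with h | ⟨b, hb⟩
    · exact ((X.Pf c).val (X.hd c) (X.hD c) (p0 c) (p1 c) n2 h h3).1
    by_contra hv
    refine bRAM F K (X.Pf c) X.d X.D (X.hd c) (X.hD c) (X.dπ c) X.dc X.comm v ξ y dξ h1 h2 hv _
      (nc b) ?_ (hb (κc c))
    rw [hψ]
    exact sub_mem (IntermediateField.mem_adjoin_simple_self F ψ)
      (IntermediateField.algebraMap_mem _ b)
  have vval : ∀ c, (X.Pf c).ν g2 ≠ 0 → (X.Pf c).Ge 1 (v - algebraMap F K (X.D0.f c)) := by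
    intro c h
    have r := ((X.Pf c).val (X.hd c) (X.hD c) (p0 c) (p1 c) n2 h h3).2
    rw [X.dπ, X.hπ, X.D.sub, X.Dt, X.Dc, mul_one, zero_sub, ← sub_eq_add_neg] at r
    exact r
  have w0' := vval 0 (by have := v2 (X.Pf 0); omega)
  have w1' := vval 1 (by have := v2 (X.Pf 1); omega)
  have wa' := vval a (by have := v2 (X.Pf a); omega)
  rw [X.D0.zero, map_zero, sub_zero] at w0'
  rw [X.D0.one, map_zero, sub_zero] at w1'
  have t2 : X.t ^ 2 ≠ 0 := pow_ne_zero _ X.t_ne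
  have vi : X.Pi.Ge (-1) v := by
    have r := (X.Pi.val (v := v / X.t ^ 2) X.hdi' X.hDi (by rw [X.dπi]; simp)
      (by rw [X.dπi, Pl.ν_neg, Pl.ν_one]) n2 (by have := v2 X.Pi; omega) (by
        show X.D.f g2 + v / X.t ^ 2 * (X.t ^ 2 * X.d.f g2) = 0
        rw [← mul_assoc, div_mul_cancel₀ _ t2]
        exact h3)).2
    rw [X.dπi, X.hπi, X.D.inv, X.Dt] at r
    have r' := (X.Pi.ge_self (X.t ^ 2)).mul r.neg
    rw [X.ν_t2] at r'
    have e : X.t ^ 2 * -(v / X.t ^ 2 * -1 + -0 / X.t ^ 2) = v := by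
      have := X.t_ne
      field_simp
      ring
    rw [e] at r'
    exact r'
  have T01 := mul_ne_zero T0 T1
  have hv : v / (X.T 0 * X.T 1) = 0 := by
    refine X.liou _ (fun c => ?_) ?_
    · by_cases q0 : c = 0
      · subst q0
        have r := w0'.div T01
        rw [Pl.mul _ T0 T1, s00, s01] at r
        exact r
      by_cases q1 : c = 1
      · subst q1
        have r := w1'.div T01
        rw [Pl.mul _ T0 T1, s10, s11] at r
        exact r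
      have r := (vreg c).div T01
      rw [Pl.mul _ T0 T1, X.ν_n q0, X.ν_n q1] at r
      exact r
    · have r := vi.div T01
      rw [Pl.mul _ T0 T1, si0, si1] at r
      exact r
  have hv0 := (div_eq_zero_iff.1 hv).resolve_right T01
  rw [hv0, zero_sub] at wa'
  have r := wa'.le (neg_ne_zero.2 ((map_ne_zero (algebraMap F K)).2 ha))
  rw [Pl.ν_neg, Pl.const _ _ ha] at r
  omega

end Ctx

end Pool.Agent.Lib.EN39
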